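import Mathlib

namespace Pool.Agent.P.MP_b905d3_nt

open Finset

/-- Giuga numbers -/
def G (n : ℕ) : Prop :=
  1 < n ∧ ¬ n.Prime ∧ ∀ p : ℕ, p.Prime → p ∣ n → (p : ℤ) ∣ ((n / p : ℕ) : ℤ) - 1

theorem not_dvd_div {n p : ℕ} (h : G n) (hp : p.Prime) (hpn : p ∣ n) : ¬ p ∣ n / p := by
  intro h1
  have h2 := h.2.2 p hp hpn
  have h3 : (p : ℤ) ∣ ((n / p : ℕ) : ℤ) := Int.natCast_dvd_natCast.2 h1
  have h4 : (p : ℤ) ∣ 1 := by
    have := Int.dvd_sub h3 h2
    simpa using this
  have h5 : p ∣ 1 := by exact_mod_cast h4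
  exact hp.one_lt.ne' (Nat.dvd_one.1 h5)

theorem sqfree {n : ℕ} (h : G n) : Squarefree n := by
  rw [Nat.squarefree_iff_prime_squarefree]
  intro p hp hpp
  have hpn : p ∣ n := Dvd.dvd.trans (Dvd.intro _ rfl) hpp
  apply not_dvd_div h hp hpn
  exact (Nat.dvd_div_iff_mul_dvd hpn).2 hpp

theorem prod_primes_dvd {S : Finset ℕ} (hS : ∀ p ∈ S, p.Prime) {z : ℤ}
    (hz : ∀ p ∈ S, (p : ℤ) ∣ z) : ((∏ p ∈ S, p : ℕ) : ℤ) ∣ z := by
  push_cast
  apply Finset.prod_dvd_of_coprime _ hz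
  intro p hp q hq hpq
  exact Nat.isCoprime_iff_coprime.2 ((Nat.coprime_primes (hS p hp) (hS q hq)).2 hpq)

theorem dvd_sum {n : ℕ} (h : G n) :
    (n : ℤ) ∣ ((∑ p ∈ n.primeFactors, n / p : ℕ) : ℤ) - 1 := by
  have hn := Nat.prod_primeFactors_of_squarefree (sqfree h)
  have : ((∏ p ∈ n.primeFactors, p : ℕ) : ℤ) ∣ ((∑ p ∈ n.primeFactors, n / p : ℕ) : ℤ) - 1 := by
    apply prod_primes_dvd (fun p hp => Nat.prime_of_mem_primeFactors hp)
    intro q hq
    have hqp := Nat.prime_of_mem_primeFactors hq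
    have hqn := Nat.dvd_of_mem_primeFactors hq
    rw [← Finset.add_sum_erase _ _ hq]
    have h1 := h.2.2 q hqp hqn
    have h2 : q ∣ ∑ p ∈ n.primeFactors.erase q, n / p := by
      apply Finset.dvd_sum
      intro p hp
      have hp' := Finset.mem_erase.1 hp
      have hpp := Nat.prime_of_mem_primeFactors hp'.2
      have hpn := Nat.dvd_of_mem_primeFactors hp'.2
      rw [Nat.dvd_div_iff_mul_dvd hpn]
      exact Nat.Coprime.mul_dvd_of_dvd_of_dvd ((Nat.coprime_primes hpp hqp).2 hp'.1) hpn hqn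
    have h3 : (q : ℤ) ∣ ((∑ p ∈ n.primeFactors.erase q, n / p : ℕ) : ℤ) :=
      Int.natCast_dvd_natCast.2 h2
    have := Int.dvd_add h1 h3
    convert this using 1
    push_cast
    ring
  rwa [hn] at this

theorem sum_div_cast {S : Finset ℕ} {P : ℕ} (hS : ∀ p ∈ S, p ∣ P ∧ p ≠ 0) :
    ((∑ p ∈ S, P / p : ℕ) : ℝ) = P * ∑ p ∈ S, (p : ℝ)⁻¹ := by
  rw [Finset.mul_sum]
  push_cast
  apply Finset.sum_congr rfl
  intro p hp
  rw [Nat.cast_div (hS p hp).1 (by exact_mod_cast (hS p hp).2), div_eq_mul_inv]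

theorem sum_inv {n : ℕ} (h : G n) :
    ∃ t : ℤ, ∑ p ∈ n.primeFactors, (p : ℝ)⁻¹ = t + (n : ℝ)⁻¹ := by
  obtain ⟨t, ht⟩ := dvd_sum h
  refine ⟨t, ?_⟩
  have hn : (n : ℝ) ≠ 0 := by have := h.1; positivity
  have h1 := sum_div_cast (S := n.primeFactors) (P := n)
    (fun p hp => ⟨Nat.dvd_of_mem_primeFactors hp, (Nat.prime_of_mem_primeFactors hp).ne_zero⟩)
  have h2 : ((∑ p ∈ n.primeFactors, n / p : ℕ) : ℝ) - 1 = n * t := by exact_mod_cast ht
  rw [h1] at h2
  apply mul_left_cancel₀ hn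
  rw [mul_add, mul_inv_cancel₀ hn]
  linarith

theorem chain {n q : ℕ} (h : G n) (hq : q ∈ n.primeFactors) :
    q ≤ n.primeFactors.card * ∏ p ∈ n.primeFactors.filter (· < q), p := by
  obtain ⟨t, ht⟩ := sum_inv h
  set S := n.primeFactors.filter (· < q) with hS
  set R := n.primeFactors.filter (fun p => ¬ p < q) with hR
  set P := ∏ p ∈ S, p with hP
  have hqp := Nat.prime_of_mem_primeFactors hq
  have hqn := Nat.dvd_of_mem_primeFactors hq
  have hn1 := h.1
  have hq0 : (0 : ℝ) < q := by exact_mod_cast hqp.pos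
  have hP0 : 0 < P := Finset.prod_pos (fun p hp =>
    (Nat.prime_of_mem_primeFactors (Finset.mem_filter.1 hp).1).pos)
  have hP0' : (0 : ℝ) < P := by exact_mod_cast hP0
  rw [← Finset.sum_filter_add_sum_filter_not n.primeFactors (· < q)] at ht
  have ha := sum_div_cast (S := S) (P := P) (fun p hp => ⟨Finset.dvd_prod_of_mem _ hp,
    (Nat.prime_of_mem_primeFactors (Finset.mem_filter.1 hp).1).ne_zero⟩)
  set a := ∑ p ∈ S, P / p
  set σ := ∑ p ∈ S, (p : ℝ)⁻¹
  set ρ := ∑ p ∈ R, (p : ℝ)⁻¹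
  have hρ1 : (q : ℝ)⁻¹ ≤ ρ :=
    Finset.single_le_sum (f := fun p : ℕ => (p : ℝ)⁻¹) (fun p _ => by positivity)
      (Finset.mem_filter.2 ⟨hq, lt_irrefl q⟩)
  have hρ2 : ρ ≤ n.primeFactors.card * (q : ℝ)⁻¹ := by
    have h1 : ρ ≤ R.card • (q : ℝ)⁻¹ := by
      apply Finset.sum_le_card_nsmul
      intro p hp
      have := (Finset.mem_filter.1 hp).2
      apply inv_anti₀ hq0
      exact_mod_cast not_lt.1 this
    rw [nsmul_eq_mul] at h1
    refine h1.trans ?_
    apply mul_le_mul_of_nonneg_right _ (by positivity)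
    exact_mod_cast Finset.card_filter_le _ _
  have hqlt : q < n := lt_of_le_of_ne (Nat.le_of_dvd (by omega) hqn) (fun e => h.2.1 (e ▸ hqp))
  have hinv : (n : ℝ)⁻¹ < (q : ℝ)⁻¹ := by
    apply inv_strictAnti₀ hq0
    exact_mod_cast hqlt
  have hn0 : (0 : ℝ) < (n : ℝ)⁻¹ := by positivity
  have h1 : (a : ℝ) < P * t := by
    rw [ha]
    apply mul_lt_mul_of_pos_left _ hP0'
    linarith
  have h2 : (a : ℤ) + 1 ≤ P * t := by
    have : (a : ℤ) < P * t := by exact_mod_cast h1
    omega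
  have h3 : (a : ℝ) + 1 ≤ P * t := by exact_mod_cast h2
  have h4 : (1 : ℝ) ≤ P * (n.primeFactors.card * (q : ℝ)⁻¹) := by
    have : (t : ℝ) - σ ≤ n.primeFactors.card * (q : ℝ)⁻¹ := by linarith
    have := mul_le_mul_of_nonneg_left this hP0'.le
    nlinarith
  have h5 : (q : ℝ) ≤ n.primeFactors.card * P := by
    have := mul_le_mul_of_nonneg_right h4 hq0.le
    have e : (P : ℝ) * (n.primeFactors.card * (q : ℝ)⁻¹) * q = n.primeFactors.card * P := by
      field_simp
    linarith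
  exact_mod_cast h5

theorem dense (M : ℕ) (S : Finset ℕ) (h0 : ∀ p ∈ S, 0 < p)
    (hS : ∀ q ∈ S, q ≤ M * ∏ p ∈ S.filter (· < q), p) :
    ∀ y : ℝ, 1 ≤ M * y → y ≤ (∏ p ∈ S, p : ℕ) →
      ∃ d : ℕ, d ∣ ∏ p ∈ S, p ∧ y ≤ d ∧ (d : ℝ) ≤ M * y := by
  induction S using Finset.induction_on_max with
  | empty =>
    intro y h1 h2
    exact ⟨1, by simp, by simpa using h2, by simpa using h1⟩
  | insert q S hq ih =>
    have hqS : q ∉ S := fun hh => lt_irrefl q (hq q hh)
    have ih' := ih (fun p hp => h0 p (Finset.mem_insert_of_mem hp)) (fun r hr => by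
      have := hS r (Finset.mem_insert_of_mem hr)
      rwa [Finset.filter_insert, if_neg (not_lt.2 (hq r hr).le)] at this)
    have hq1 := hS q (Finset.mem_insert_self _ _)
    rw [Finset.filter_insert, if_neg (lt_irrefl q), Finset.filter_true_of_mem hq] at hq1
    have hq0 : (0 : ℝ) < q := by exact_mod_cast h0 q (Finset.mem_insert_self _ _)
    rw [Finset.prod_insert hqS]
    set P := ∏ p ∈ S, p
    intro y h1 h2
    rcases le_or_gt y P with hy | hy
    · obtain ⟨d, hd1, hd2, hd3⟩ := ih' y h1 hy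
      exact ⟨d, hd1.mul_left q, hd2, hd3⟩
    · have hq2 : (q : ℝ) ≤ M * P := by exact_mod_cast hq1
      have hM : (0 : ℝ) ≤ M := by positivity
      obtain ⟨d, hd1, hd2, hd3⟩ := ih' (y / q) (by
        rw [← mul_div_assoc, le_div_iff₀ hq0]
        nlinarith) (by
        rw [div_le_iff₀ hq0]
        push_cast at h2
        linarith)
      refine ⟨q * d, Nat.mul_dvd_mul_left q hd1, ?_, ?_⟩
      · rw [div_le_iff₀ hq0] at hd2
        push_cast
        linarith
      · rw [← mul_div_assoc, le_div_iff₀ hq0] at hd3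
        push_cast
        linarith

theorem sq_dvd_sub {n n' d : ℕ} (h : G n) (h' : G n') (hd : d ∣ n) (hd' : d ∣ n') (hle : n' ≤ n) :
    d * d ∣ n - n' := by
  obtain ⟨e, rfl⟩ := hd
  obtain ⟨e', rfl⟩ := hd'
  have hd0 : 0 < d := Nat.pos_of_ne_zero (by rintro rfl; simpa using h.1)
  have hee : e' ≤ e := Nat.le_of_mul_le_mul_left hle hd0
  rw [← Nat.mul_sub]
  apply Nat.mul_dvd_mul_left
  have hsq : Squarefree d := (sqfree h).squarefree_of_dvd (Dvd.intro _ rfl)
  have h1 : ((∏ p ∈ d.primeFactors, p : ℕ) : ℤ) ∣ ((e - e' : ℕ) : ℤ) := by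
    apply prod_primes_dvd (fun p hp => Nat.prime_of_mem_primeFactors hp)
    intro p hp
    have hpp := Nat.prime_of_mem_primeFactors hp
    obtain ⟨c, rfl⟩ := Nat.dvd_of_mem_primeFactors hp
    have e1 : p * c * e / p = c * e := by
      rw [mul_assoc, Nat.mul_div_cancel_left _ hpp.pos]
    have e2 : p * c * e' / p = c * e' := by
      rw [mul_assoc, Nat.mul_div_cancel_left _ hpp.pos]
    have hpn : p ∣ p * c * e := by rw [mul_assoc]; exact Dvd.intro _ rfl
    have a1 := h.2.2 p hpp hpn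
    have a2 := h'.2.2 p hpp (by rw [mul_assoc]; exact Dvd.intro _ rfl)
    have a3 := not_dvd_div h hpp hpn
    rw [e1] at a1 a3
    rw [e2] at a2
    have a4 : (p : ℤ) ∣ ((c * (e - e') : ℕ) : ℤ) := by
      have := Int.dvd_sub a1 a2
      convert this using 1
      push_cast [Nat.cast_sub hee]
      ring
    have a5 : p ∣ c * (e - e') := Int.natCast_dvd_natCast.1 a4
    rcases (Nat.Prime.dvd_mul hpp).1 a5 with a6 | a6
    · exact absurd (a6.mul_right e) a3
    · exact Int.natCast_dvd_natCast.2 a6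
  rw [Nat.prod_primeFactors_of_squarefree hsq] at h1
  exact Int.natCast_dvd_natCast.1 h1

theorem spaced_card {D X : ℕ} (hD : 0 < D) (T : Finset ℕ) (hX : ∀ n ∈ T, n ≤ X)
    (h : ∀ n ∈ T, ∀ n' ∈ T, n' ≤ n → D ∣ n - n') : T.card ≤ X / D + 1 := by
  rw [← Finset.card_range (X / D + 1)]
  apply Finset.card_le_card_of_injOn (fun n => n / D)
  · intro n hn
    have := Nat.div_le_div_right (c := D) (hX n hn)
    simp only [Finset.coe_range, Set.mem_Iio]
    omega
  · have key : ∀ n ∈ T, ∀ n' ∈ T, n' ≤ n → n / D = n' / D → n = n' := by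
      intro n hn n' hn' hle he
      obtain ⟨q, hq⟩ := h n hn n' hn' hle
      have e1 : n = n' + D * q := by omega
      rw [e1, Nat.add_mul_div_left _ _ hD] at he
      have : q = 0 := by omega
      subst this
      simpa using e1
    intro n hn n' hn' he
    rcases le_total n' n with hle | hle
    · exact key n hn n' hn' hle he
    · exact (key n' hn' n hn hle he.symm).symm

theorem count_le {X M Y : ℕ} (hM : 1 ≤ M) (hY : 1 ≤ Y) (T : Finset ℕ)
    (hT : ∀ n ∈ T, n ≤ X ∧ G n ∧ n.primeFactors.card ≤ M) :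
    (T.card : ℝ) ≤ Y + M * Y + 2 * X / Y := by
  classical
  have hsub : T ⊆ Finset.range Y ∪ (Finset.Ioo (Y - 1) (M * Y + 1)).biUnion
      (fun d => T.filter (d ∣ ·)) := by
    intro n hn
    rcases lt_or_ge n Y with h1 | h1
    · exact Finset.mem_union_left _ (Finset.mem_range.2 h1)
    · apply Finset.mem_union_right
      obtain ⟨_, hG, hm⟩ := hT n hn
      have hn' := Nat.prod_primeFactors_of_squarefree (sqfree hG)
      obtain ⟨d, hd1, hd2, hd3⟩ := dense M n.primeFactors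
        (fun p hp => (Nat.prime_of_mem_primeFactors hp).pos)
        (fun q hq => (chain hG hq).trans (Nat.mul_le_mul_right _ hm)) Y
        (by have : 1 ≤ M * Y := Nat.mul_pos hM hY
            exact_mod_cast this)
        (by rw [hn']; exact_mod_cast h1)
      rw [hn'] at hd1
      have hd2' : Y ≤ d := by exact_mod_cast hd2
      have hd3' : d ≤ M * Y := by exact_mod_cast hd3
      rw [Finset.mem_biUnion]
      exact ⟨d, Finset.mem_Ioo.2 ⟨by omega, by omega⟩, Finset.mem_filter.2 ⟨hn, hd1⟩⟩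
  have h1 := (Finset.card_le_card hsub).trans ((Finset.card_union_le _ _).trans
    (Nat.add_le_add_left Finset.card_biUnion_le _))
  rw [Finset.card_range] at h1
  have h2 : ∀ d ∈ Finset.Ioo (Y - 1) (M * Y + 1),
      ((T.filter (d ∣ ·)).card : ℝ) ≤ X * ((d : ℝ) ^ 2)⁻¹ + 1 := by
    intro d hd
    have hd0 : 0 < d := by have := (Finset.mem_Ioo.1 hd).1; omega
    have := spaced_card (D := d * d) (X := X) (Nat.mul_pos hd0 hd0) (T.filter (d ∣ ·))
      (fun n hn => (hT n (Finset.mem_filter.1 hn).1).1)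
      (fun n hn n' hn' hle => sq_dvd_sub (hT n (Finset.mem_filter.1 hn).1).2.1
        (hT n' (Finset.mem_filter.1 hn').1).2.1 (Finset.mem_filter.1 hn).2
        (Finset.mem_filter.1 hn').2 hle)
    have h3 : ((T.filter (d ∣ ·)).card : ℝ) ≤ ((X / (d * d) : ℕ) : ℝ) + 1 := by exact_mod_cast this
    have h4 : ((X / (d * d) : ℕ) : ℝ) ≤ X / ((d * d : ℕ) : ℝ) := Nat.cast_div_le
    have e : (X : ℝ) / ((d * d : ℕ) : ℝ) = X * ((d : ℝ) ^ 2)⁻¹ := by
      push_cast
      rw [← sq, div_eq_mul_inv]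
    linarith
  have h3 : (T.card : ℝ) ≤ Y + ∑ d ∈ Finset.Ioo (Y - 1) (M * Y + 1),
      ((T.filter (d ∣ ·)).card : ℝ) := by exact_mod_cast h1
  have h4 := Finset.sum_le_sum h2
  rw [Finset.sum_add_distrib, ← Finset.mul_sum, Finset.sum_const, Nat.card_Ioo, nsmul_eq_mul,
    mul_one] at h4
  have h5 := sum_Ioo_inv_sq_le (α := ℝ) (Y - 1) (M * Y + 1)
  have e1 : ((Y - 1 : ℕ) : ℝ) + 1 = Y := by rw [Nat.cast_sub hY]; simp
  rw [e1] at h5
  have h6 : ((M * Y + 1 - (Y - 1) - 1 : ℕ) : ℝ) ≤ M * Y := by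
    have : M * Y + 1 - (Y - 1) - 1 ≤ M * Y := by omega
    exact_mod_cast this
  have h7 := mul_le_mul_of_nonneg_left h5 (show (0 : ℝ) ≤ X by positivity)
  have e2 : (X : ℝ) * (2 / Y) = 2 * X / Y := by ring
  linarith

theorem count_sqrt {X M : ℕ} (hM : 1 ≤ M) (hMX : M ≤ X) (T : Finset ℕ)
    (hT : ∀ n ∈ T, n ≤ X ∧ G n ∧ n.primeFactors.card ≤ M) :
    (T.card : ℝ) ≤ 6 * √(X * M) := by
  have hM0 : (0 : ℝ) < M := by exact_mod_cast hM
  have hM1 : (1 : ℝ) ≤ M := by exact_mod_cast hM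
  have hX : (M : ℝ) ≤ X := by exact_mod_cast hMX
  have hX0 : (0 : ℝ) < X := by linarith
  set s := √((X : ℝ) * M) with hs
  have hs0 : 0 < s := Real.sqrt_pos.2 (by positivity)
  have hss : s * s = X * M := Real.mul_self_sqrt (by positivity)
  have hMs : (M : ℝ) ≤ s := by
    apply Real.le_sqrt_of_sq_le
    nlinarith
  set Y := ⌈s / M⌉₊ with hY
  have hY1 : s / M ≤ Y := Nat.le_ceil _
  have hY2 : (Y : ℝ) ≤ s / M + 1 := (Nat.ceil_lt_add_one (by positivity)).le
  have hsM : 0 < s / M := by positivity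
  have hY0 : 1 ≤ Y := Nat.ceil_pos.2 hsM
  have h := count_le hM hY0 T hT
  have h1 : 2 * (X : ℝ) / Y ≤ 2 * s := by
    have hY0' : (0 : ℝ) < Y := by linarith
    rw [div_le_iff₀ hY0']
    rw [div_le_iff₀ hM0] at hY1
    have : X * M ≤ s * Y * M := by nlinarith
    have := le_of_mul_le_mul_right this hM0
    linarith
  have h2 : (M : ℝ) * Y ≤ s + M := by
    have := mul_le_mul_of_nonneg_left hY2 hM0.le
    rw [mul_add, mul_div_cancel₀ _ hM0.ne'] at this
    linarith
  have h3 : (Y : ℝ) ≤ M * Y := le_mul_of_one_le_left (by positivity) hM1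
  linarith

theorem fact_le_prod (S : Finset ℕ) (h0 : ∀ p ∈ S, 0 < p) : S.card.factorial ≤ ∏ p ∈ S, p := by
  induction S using Finset.induction_on_max with
  | empty => simp
  | insert q S hq ih =>
    have hqS : q ∉ S := fun hh => lt_irrefl q (hq q hh)
    rw [Finset.card_insert_of_notMem hqS, Finset.prod_insert hqS, Nat.factorial_succ]
    apply Nat.mul_le_mul _ (ih (fun p hp => h0 p (Finset.mem_insert_of_mem hp)))
    have : S ⊆ Finset.Ioo 0 q := fun p hp =>
      Finset.mem_Ioo.2 ⟨h0 p (Finset.mem_insert_of_mem hp), hq p hp⟩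
    have h1 := Finset.card_le_card this
    rw [Nat.card_Ioo] at h1
    have := h0 q (Finset.mem_insert_self _ _)
    omega

theorem omega_le {X m : ℕ} (hX : 3 ≤ X) (hm : 1 ≤ m) (h : m.factorial ≤ X) :
    (m : ℝ) ≤ 6 * (Real.log X / Real.log (Real.log X)) := by
  have hX' : (3 : ℝ) ≤ X := by exact_mod_cast hX
  set L := Real.log X with hL
  have hL1 : 1 < L := by
    rw [hL, Real.lt_log_iff_exp_lt (by linarith)]
    have := Real.exp_one_lt_d9
    linarith
  have hLL : 0 < Real.log L := Real.log_pos hL1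
  have hm0 : (0 : ℝ) < m := by exact_mod_cast hm
  have h1 : (m : ℝ) ^ m / m.factorial ≤ Real.exp m := Real.pow_div_factorial_le_exp _ hm0.le m
  have hf : (0 : ℝ) < m.factorial := by exact_mod_cast Nat.factorial_pos m
  have hf2 : (m.factorial : ℝ) ≤ X := by exact_mod_cast h
  rw [div_le_iff₀ hf] at h1
  have h2 : (m : ℝ) ^ m ≤ Real.exp m * X :=
    h1.trans (mul_le_mul_of_nonneg_left hf2 (Real.exp_pos _).le)
  have h3 := Real.log_le_log (by positivity) h2
  rw [Real.log_pow, Real.log_mul (Real.exp_pos _).ne' (by linarith), Real.log_exp] at h3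
  rw [← mul_div_assoc, le_div_iff₀ hLL]
  set r := √L with hr
  have hr0 : 0 < r := Real.sqrt_pos.2 (by linarith)
  have hrr : r * r = L := Real.mul_self_sqrt (by linarith)
  have hlog : Real.log L = 2 * Real.log r := by
    rw [← hrr, Real.log_mul hr0.ne' hr0.ne']; ring
  rcases le_or_gt (m : ℝ) (3 * r) with h4 | h4
  · have h5 : Real.log r ≤ r := (Real.log_le_sub_one_of_pos hr0).trans (by linarith)
    have : (m : ℝ) * Real.log L ≤ (3 * r) * (2 * r) :=
      mul_le_mul h4 (by linarith) hLL.le (by positivity)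
    nlinarith
  · have h5 := Real.log_le_log (by positivity) h4.le
    rw [Real.log_mul (by norm_num) hr0.ne'] at h5
    have h6 : 1 ≤ Real.log 3 := by
      rw [Real.le_log_iff_exp_le (by norm_num)]
      have := Real.exp_one_lt_d9
      linarith
    have h7 : (m : ℝ) * (1 + Real.log r) ≤ m * Real.log m :=
      mul_le_mul_of_nonneg_left (by linarith) hm0.le
    rw [hlog]
    nlinarith

theorem main {X : ℕ} (hX : 3 ≤ X) (T : Finset ℕ) (hT : ∀ n ∈ T, n ≤ X ∧ G n) :
    (T.card : ℝ) ≤ 15 * √(X * Real.log X / Real.log (Real.log X)) := by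
  rcases T.eq_empty_or_nonempty with rfl | hne
  · simp only [Finset.card_empty, Nat.cast_zero]; positivity
  obtain ⟨n, hn, hmax⟩ := Finset.exists_max_image T (fun n => n.primeFactors.card) hne
  obtain ⟨hnX, hG⟩ := hT n hn
  set M := n.primeFactors.card with hM
  have hM1 : 1 ≤ M := Finset.card_pos.2 (Nat.nonempty_primeFactors.2 hG.1)
  have hf : M.factorial ≤ X := by
    have := fact_le_prod n.primeFactors (fun p hp => (Nat.prime_of_mem_primeFactors hp).pos)
    rw [Nat.prod_primeFactors_of_squarefree (sqfree hG)] at this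
    exact this.trans hnX
  have hMX : M ≤ X := (Nat.self_le_factorial M).trans hf
  have h1 := count_sqrt hM1 hMX T (fun k hk => ⟨(hT k hk).1, (hT k hk).2, hmax k hk⟩)
  have h2 := omega_le hX hM1 hf
  refine h1.trans ?_
  have hX0 : (0 : ℝ) ≤ X := by positivity
  have hM0 : (0 : ℝ) ≤ M := by positivity
  set Q := Real.log X / Real.log (Real.log X) with hQ
  have hQ0 : 0 ≤ Q := by linarith
  rw [mul_div_assoc, ← hQ]
  have h3 : √((X : ℝ) * M) ≤ 5 / 2 * √(X * Q) := by
    apply Real.sqrt_le_iff.2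
    refine ⟨by positivity, ?_⟩
    rw [mul_pow, Real.sq_sqrt (by positivity)]
    have := mul_le_mul_of_nonneg_left h2 hX0
    have h4 : 0 ≤ (X : ℝ) * Q := by positivity
    nlinarith
  linarith

end Pool.Agent.P.MP_b905d3_nt
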