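import Mathlib

/-! The length of an odd Giuga sequence modulo 8, by quadratic reciprocity. -/

set_option autoImplicit false

open Finset

namespace Pool.Agent.P.MP_b905d3_nt

/-- The sum of the products of all elements but one. -/
def esum (S : Finset ℕ) : ℕ := ∑ s ∈ S, ∏ t ∈ S.erase s, t

theorem esum_insert {a : ℕ} {S : Finset ℕ} (h : a ∉ S) :
    esum (insert a S) = ∏ t ∈ S, t + a * esum S := by
  rw [esum, sum_insert h, erase_insert h, esum, mul_sum]
  congr 1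
  refine sum_congr rfl fun s hs => ?_
  rw [erase_insert_of_ne (by rintro rfl; exact h hs),
    prod_insert fun h' => h (mem_of_mem_erase h')]

theorem esum_cast {S : Finset ℕ} (h : ∀ s ∈ S, s ≠ 0) :
    (esum S : ℚ) = (∏ s ∈ S, (s : ℚ)) * ∑ s ∈ S, 1 / (s : ℚ) := by
  rw [esum, mul_sum]
  push_cast
  refine sum_congr rfl fun s hs => ?_
  rw [← mul_prod_erase S (fun t => (t : ℚ)) hs]
  have : (s : ℚ) ≠ 0 := by exact_mod_cast h s hs
  field_simp

theorem esum_iff {S : Finset ℕ} (h : ∀ s ∈ S, s ≠ 0) (k : ℤ) :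
    ∑ s ∈ S, 1 / (s : ℚ) - 1 / ∏ s ∈ S, (s : ℚ) = k ↔
      (esum S : ℤ) = k * (∏ s ∈ S, s : ℕ) + 1 := by
  have hP : ∏ s ∈ S, (s : ℚ) ≠ 0 := prod_ne_zero_iff.2 fun s hs => by exact_mod_cast h s hs
  rw [← Int.cast_inj (α := ℚ)]
  push_cast
  rw [esum_cast h]
  constructor
  · intro e
    rw [← e]
    field_simp
    ring
  · intro e
    field_simp
    field_simp at e
    linarith

theorem odd_prod {S : Finset ℕ} (h : ∀ s ∈ S, s % 2 = 1) : (∏ s ∈ S, s) % 2 = 1 :=
  prod_induction _ (fun x => x % 2 = 1) (fun a b ha hb => by rw [Nat.mul_mod, ha, hb]) rfl h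

theorem jac_prod (a : ℤ) {S : Finset ℕ} (h : ∀ s ∈ S, s ≠ 0) :
    ∏ s ∈ S, jacobiSym a s = jacobiSym a (∏ s ∈ S, s) := by
  induction S using Finset.induction_on with
  | empty => simp
  | insert b S hb ih =>
    have h' : ∀ s ∈ S, s ≠ 0 := fun s hs => h s (mem_insert_of_mem hs)
    rw [prod_insert hb, prod_insert hb, ih h',
      jacobiSym.mul_right' a (h b (mem_insert_self _ _)) (prod_ne_zero_iff.2 h')]

theorem step8 : ∀ a P E c q : Fin 8, a.val % 2 = 1 → P.val % 2 = 1 → q.val % 4 = 0 →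
    P * E + 1 = P + c + q → (a * P) * (P + a * E) + 1 =
      a * P + (c + 1) + (q + if a.val % 4 = 3 ∧ P.val % 4 = 3 then 4 else 0) := by
  decide +kernel

theorem step8' (a P E c q : ℕ) (ha : a % 2 = 1) (hP : P % 2 = 1) (hq : q % 4 = 0)
    (h : (P * E + 1) % 8 = (P + c + q) % 8) : ((a * P) * (P + a * E) + 1) % 8 =
      (a * P + (c + 1) + (q + if a % 4 = 3 ∧ P % 4 = 3 then 4 else 0)) % 8 := by
  have := step8 (Fin.ofNat 8 a) (Fin.ofNat 8 P) (Fin.ofNat 8 E) (Fin.ofNat 8 c) (Fin.ofNat 8 q)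
    (by simp [Fin.ofNat]; omega) (by simp [Fin.ofNat]; omega) (by simp [Fin.ofNat]; omega)
    (by simpa [Fin.ext_iff, Fin.val_add, Fin.val_mul, Fin.ofNat] using h)
  have e : ((Fin.ofNat 8 a).val % 4 = 3 ∧ (Fin.ofNat 8 P).val % 4 = 3) ↔
      (a % 4 = 3 ∧ P % 4 = 3) := by
    simp only [Fin.ofNat]
    omega
  simp only [e] at this
  split_ifs at this ⊢ <;>
    simpa [Fin.ext_iff, Fin.val_add, Fin.val_mul, Fin.ofNat] using this

theorem key8 (S : Finset ℕ) (ho : ∀ s ∈ S, s % 2 = 1)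
    (hc : ∀ s ∈ S, ∀ t ∈ S, s ≠ t → Nat.Coprime s t) :
    ∃ q : ℕ, q % 4 = 0 ∧ ∏ s ∈ S, jacobiSym (∏ t ∈ S.erase s, t : ℕ) s = (-1) ^ (q / 4) ∧
      ((∏ s ∈ S, s) * esum S + 1) % 8 = (∏ s ∈ S, s + S.card + q) % 8 := by
  induction S using Finset.induction_on with
  | empty => exact ⟨0, rfl, by simp, by simp [esum]⟩
  | insert a S ha ih =>
    have ho' : ∀ s ∈ S, s % 2 = 1 := fun s hs => ho s (mem_insert_of_mem hs)
    obtain ⟨q, h1, h2, h3⟩ := ih ho' fun s hs t ht =>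
      hc s (mem_insert_of_mem hs) t (mem_insert_of_mem ht)
    have hao := ho a (mem_insert_self _ _)
    refine ⟨q + if a % 4 = 3 ∧ (∏ s ∈ S, s) % 4 = 3 then 4 else 0, by split_ifs <;> omega, ?_, ?_⟩
    · have e : ∀ s ∈ S, jacobiSym (∏ t ∈ (insert a S).erase s, t : ℕ) s =
          jacobiSym a s * jacobiSym (∏ t ∈ S.erase s, t : ℕ) s := fun s hs => by
        rw [erase_insert_of_ne (by rintro rfl; exact ha hs),
          prod_insert fun h' => ha (mem_of_mem_erase h'), Nat.cast_mul, jacobiSym.mul_left]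
      have hg : Int.gcd (∏ s ∈ S, s : ℕ) a = 1 := by
        rw [Int.gcd_natCast_natCast]
        exact Nat.Coprime.prod_left fun s hs => hc s (mem_insert_of_mem hs) a (mem_insert_self _ _)
          (by rintro rfl; exact ha hs)
      have hs := jacobiSym.sq_one hg
      rw [prod_insert ha, erase_insert ha, prod_congr rfl e, prod_mul_distrib, h2,
        jac_prod _ fun s hs => by have := ho' s hs; omega,
        ← jacobiSym.quadratic_reciprocity_if hao (odd_prod ho')]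
      split_ifs
      · rw [show (q + 4) / 4 = q / 4 + 1 by omega]
        linear_combination (-(-1) ^ (q / 4)) * hs
      · rw [add_zero]
        linear_combination ((-1) ^ (q / 4)) * hs
    · rw [prod_insert ha, esum_insert ha, card_insert_of_notMem ha]
      exact step8' _ _ _ _ _ hao (odd_prod ho') h1 h3

theorem dvd_esum {S : Finset ℕ} {s : ℕ} (hs : s ∈ S) :
    esum S = ∏ t ∈ S.erase s, t + s * esum (S.erase s) := by
  rw [← esum_insert (notMem_erase s S), insert_erase hs]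

theorem mod8 {S : Finset ℕ} (ho : ∀ s ∈ S, s % 2 = 1) {k : ℤ}
    (h : (esum S : ℤ) = k * (∏ s ∈ S, s : ℕ) + 1) : (S.card : ℤ) % 8 = (k + 1) % 8 := by
  have h1 : ∀ s ∈ S, ((∏ t ∈ S.erase s, t : ℕ) : ℤ) =
      1 + s * (k * (∏ t ∈ S.erase s, t : ℕ) - esum (S.erase s)) := fun s hs => by
    rw [dvd_esum hs, ← mul_prod_erase S (fun t => t) hs] at h
    push_cast at h ⊢
    linear_combination h
  obtain ⟨q, h2, h3, h4⟩ := key8 S ho fun s hs t ht hst => by
    obtain ⟨c, hc⟩ : t ∣ ∏ t ∈ S.erase s, t := dvd_prod_of_mem _ (mem_erase.2 ⟨hst.symm, ht⟩)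
    have := h1 s hs
    rw [← Nat.isCoprime_iff_coprime]
    refine ⟨-(k * (∏ t ∈ S.erase s, t : ℕ) - esum (S.erase s)), c, ?_⟩
    have hc' : ((∏ t ∈ S.erase s, t : ℕ) : ℤ) = t * c := by exact_mod_cast hc
    linear_combination this - hc'
  rw [prod_eq_one fun s hs => by
    rw [h1 s hs, jacobiSym.mod_left, Int.add_mul_emod_self_left, ← jacobiSym.mod_left,
      jacobiSym.one_left]] at h3
  have h5 : Even (q / 4) := (neg_one_pow_eq_one_iff_even (by decide)).1 h3.symm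
  have h6 := odd_prod ho
  generalize ∏ s ∈ S, s = P at *
  obtain ⟨u, hu⟩ : ∃ u : ℤ, (P : ℤ) * P = 8 * u + 1 := by
    obtain ⟨c, rfl⟩ : ∃ c, P = 2 * c + 1 := ⟨P / 2, by omega⟩
    obtain ⟨d, hd⟩ := Int.even_mul_succ_self (c : ℤ)
    exact ⟨d, by push_cast; linear_combination 4 * hd⟩
  have h7 : ((P * esum S : ℕ) : ℤ) = 8 * (k * u) + k + P := by
    push_cast
    rw [h]
    linear_combination k * hu
  obtain ⟨r, hr⟩ := h5
  omega

end Pool.Agent.P.MP_b905d3_nt
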