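import Pool.Agent.P.MP_b905d3_nt.Mod8

/-! The shortest odd Giuga sequence has 18 terms. -/

set_option autoImplicit false

open Finset

namespace Pool.Agent.P.MP_b905d3_nt

/-- Search for the remaining `r + 1` terms, given product `P`, remainder `a / P`, lower bound. -/
def chk : ℕ → ℕ → ℕ → ℕ → Bool
  | 0, P, a, _ => (P - 1) % a != 0
  | r + 1, P, a, lo =>
    (List.range' (max lo (P / a + 1)) ((r + 2) * P / a + 1 - max lo (P / a + 1))).all fun x =>
      x % 2 == 0 || Nat.gcd x P != 1 || chk r (P * x) (a * x - P) (x + 1)

theorem min_bound {T : Finset ℕ} {x P a : ℕ} (hx : ∀ t ∈ T, x ≤ t) (h0 : 0 < x)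
    (h : P * esum T = a * ∏ t ∈ T, t + 1) : x * a < T.card * P := by
  have h1 : x * esum T ≤ T.card * ∏ t ∈ T, t := by
    rw [esum, mul_sum, ← smul_eq_mul, ← sum_const]
    refine sum_le_sum fun t ht => ?_
    rw [← mul_prod_erase T (fun t => t) ht]
    exact Nat.mul_le_mul_right _ (hx t ht)
  refine lt_of_mul_lt_mul_right (a := ∏ t ∈ T, t) ?_ (Nat.zero_le _)
  have h2 := Nat.mul_le_mul_left P h1
  have h3 : x * (P * esum T) = x * (a * ∏ t ∈ T, t + 1) := by rw [h]
  nlinarith

theorem chk_sound (r : ℕ) : ∀ (P a lo : ℕ) (T : Finset ℕ), chk r P a lo = true → 0 < P → 0 < a →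
    2 ≤ lo → T.card = r + 1 → (∀ t ∈ T, t % 2 = 1 ∧ lo ≤ t) →
    P * esum T ≠ a * ∏ t ∈ T, t + 1 := by
  induction r with
  | zero =>
    intro P a lo T h _ _ _ hT _ e
    obtain ⟨x, rfl⟩ := card_eq_one.1 hT
    simp only [esum, sum_singleton, erase_singleton, prod_empty, mul_one, prod_singleton] at e
    simp [chk, e] at h
  | succ r ih =>
    intro P a lo T h hP ha hlo hT ht e
    obtain ⟨x, hx, hm⟩ := exists_min_image T id (card_pos.1 (by omega))
    obtain ⟨x1, x2⟩ := ht x hx
    have b1 := min_bound (x := x) hm (by omega) e
    have hc : (T.erase x).card = r + 1 := by rw [card_erase_of_mem hx]; omega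
    have hE : 0 < esum (T.erase x) := sum_pos (fun s _ => prod_pos fun t h' => by
      have := (ht t (mem_of_mem_erase (mem_of_mem_erase h'))).2
      omega) (card_pos.1 (by omega))
    have hg : Nat.gcd x P = 1 := by
      have g1 : Nat.gcd x P ∣ a * ∏ t ∈ T, t + 1 := e ▸ (Nat.gcd_dvd_right x P).mul_right _
      exact Nat.dvd_one.1 ((Nat.dvd_add_right
        (((Nat.gcd_dvd_left x P).trans (dvd_prod_of_mem (fun t => t) hx)).mul_left a)).1 g1)
    rw [dvd_esum hx, ← mul_prod_erase T (fun t => t) hx] at e
    have b2 : P < a * x := by
      by_contra hn
      have := Nat.mul_le_mul_right (∏ t ∈ T.erase x, t) (not_lt.1 hn)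
      have h2 : 1 * (2 * 1) ≤ P * (x * esum (T.erase x)) :=
        Nat.mul_le_mul hP (Nat.mul_le_mul (by omega) hE)
      nlinarith
    have b3 : P / a + 1 ≤ x := (Nat.div_lt_iff_lt_mul ha).2 (by rwa [mul_comm])
    have b4 : x ≤ (r + 2) * P / a := (Nat.le_div_iff_mul_le ha).2 (by rw [hT] at b1; exact b1.le)
    simp only [chk, List.all_eq_true, List.mem_range'_1] at h
    have h' := h x (by omega)
    simp only [x1, hg, Bool.or_eq_true, beq_iff_eq, one_ne_zero, bne_self_eq_false,
      Bool.false_eq_true, false_or] at h'
    refine ih _ _ _ (T.erase x) h' (Nat.mul_pos hP (by omega)) (by omega) (by omega) hc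
      (fun t h1 => ⟨(ht t (mem_of_mem_erase h1)).1, lt_of_le_of_ne (hm t (mem_of_mem_erase h1))
        (ne_of_mem_erase h1).symm⟩) ?_
    zify [b2.le] at e ⊢
    linear_combination e

theorem chk_all : ∀ r < 17, ∀ k < 6, 0 < k → r % 8 = k % 8 → chk r 1 k 3 = true := by
  decide +kernel

theorem eighteen {S : Finset ℕ} (ho : ∀ s ∈ S, s % 2 = 1 ∧ 1 < s) {k : ℕ} (hk : 0 < k)
    (h : esum S = k * ∏ s ∈ S, s + 1) : 18 ≤ S.card := by
  have h3 : ∀ s ∈ S, 3 ≤ s := fun s hs => by have := ho s hs; omega
  have h1 := mod8 (k := k) (fun s hs => (ho s hs).1) (by exact_mod_cast h)
  have h2 := min_bound (P := 1) h3 (by omega) (by rwa [one_mul])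
  by_contra hn
  exact chk_sound (S.card - 1) 1 k 3 S (chk_all _ (by omega) _ (by omega) hk (by omega)) one_pos hk
    (by omega) (by omega) (fun s hs => ⟨(ho s hs).1, h3 s hs⟩) (by rwa [one_mul])

/-- An odd Giuga sequence with 18 terms. -/
def ex : Finset ℕ :=
  {3,
    5,
    7,
    11,
    13,
    17,
    19,
    23,
    977,
    48913,
    1201040387,
    1181917832346819203,
    165330858717806446607598253330393,
    167952499530993098593618398907657656105731119555694356063566941,
    103048725049743408035661930974097495907709916515194461108191796180602018932475801226258867523503624526722823654869146926938432293884283,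
    63193335278678776427278724320811512889169193851212146784885194903326262229149538048474339836979775869679669161193329316087384459098664063788308579916282068897166400977091770707096064489119657573298967062313702901300230531599587384447288716749716436651804757933379,
    10617506875228309315635055380504524658450749420257392776329142531053212861993470503234111550083569040971586086831148766059368510696773278868771844588140956778298859856866327681918554662639452073280823958051157107729502879059528125765618960674273193508979155464420220940342054510504567785025401309149180724302185414585562972876139542717796041127023764061781555629304687362035846503042234997789421972471964798063953400818664767331968124675612506836704181402140978078485221961657148853010946424897308036239914615851960406322851749,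
    7263840585049323118507792075617088054313278904279491864079726637915834179019179258805959231268612146558153277931438307894986361122433265555294646261610602671891931465214340228724426326367189130753811347125743479091136605576938610090783559961128353132085666195797795806286116650765994224173236772662657077051201675508244949898232548411090307508926344578926826379783371885326145421373901801219770896046306354005472333324121497075430891844002834323923092676992309120475487573247851281154327733651211927703623621808426591115274199322735806491214451921311903117104238000184876180581469948086869753990617850051370033795439146127985935056307558820873185153634585624158137734199934740581831850586318527556947079058644750454766658534553344878422905694846552706749991651026321235656642786317379161170429272753534211269143327646097901899476363200781901069995601105682200459705350227078951230254171919436620107159786195657856836518035096369140149296890517074974681127916947506168736266993679945478824552386480508848219114482250043013725790767872785936496453861021581016657}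

theorem ex_spec : ex.card = 18 ∧ (∀ s ∈ ex, s % 2 = 1 ∧ 1 < s) ∧
    esum ex = 1 * ∏ s ∈ ex, s + 1 := by
  decide +kernel

end Pool.Agent.P.MP_b905d3_nt
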