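import Pool.Agent.P.MP_b905d3_nt.SpB

/-! Sums over primes and two counting lemmas. -/

namespace Pool.Agent.P.MP_b905d3_nt

open Finset Real

theorem block1 {Z : ℝ} (hZ : 0 < Z) (S : Finset ℕ)
    (h : ∀ p ∈ S, p.Prime ∧ Z ≤ p ∧ (p : ℝ) ≤ 2 * Z) : ∑ p ∈ S, log p / p ≤ 3 := by
  have h1 : ∑ p ∈ S, log p / p ≤ (∑ p ∈ S, log p) / Z := by
    rw [sum_div]
    exact sum_le_sum fun p hp =>
      div_le_div_of_nonneg_left (log_natCast_nonneg p) hZ (h p hp).2.1
  have h2 : ∑ p ∈ S, log p ≤ Chebyshev.theta (2 * Z) := by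
    refine sum_le_sum_of_subset_of_nonneg (fun p hp => ?_) fun p _ _ => log_natCast_nonneg p
    exact mem_filter.2 ⟨mem_Ioc.2 ⟨(h p hp).1.pos, Nat.le_floor (h p hp).2.2⟩, (h p hp).1⟩
  have h3 := Chebyshev.theta_le_log4_mul_x (x := 2 * Z) (by linarith)
  have h4 : log 4 ≤ 3 / 2 := by
    rw [show (4 : ℝ) = 2 ^ 2 by norm_num, log_pow]
    have := log_two_lt_d9
    push_cast
    linarith
  refine h1.trans ((div_le_iff₀ hZ).2 ?_)
  nlinarith

theorem block {Z : ℝ} (hZ : 0 < Z) (k : ℕ) : ∀ S : Finset ℕ,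
    (∀ p ∈ S, p.Prime ∧ Z ≤ p ∧ (p : ℝ) < 2 ^ k * Z) → ∑ p ∈ S, log p / p ≤ 3 * k := by
  induction k with
  | zero =>
    intro S h
    rw [sum_eq_zero fun p hp => absurd (h p hp).2.2 (by simpa using (h p hp).2.1)]
    simp
  | succ k ih =>
    intro S h
    rw [← sum_filter_add_sum_filter_not S fun p => (p : ℝ) < 2 ^ k * Z]
    have h1 := ih (S.filter fun p => (p : ℝ) < 2 ^ k * Z) fun p hp =>
      ⟨(h p (mem_filter.1 hp).1).1, (h p (mem_filter.1 hp).1).2.1, (mem_filter.1 hp).2⟩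
    have h2 := block1 (Z := 2 ^ k * Z) (by positivity)
      (S.filter fun p => ¬ (p : ℝ) < 2 ^ k * Z) fun p hp =>
      ⟨(h p (mem_filter.1 hp).1).1, not_lt.1 (mem_filter.1 hp).2, by
        have := (h p (mem_filter.1 hp).1).2.2
        rw [pow_succ] at this
        linarith⟩
    push_cast
    linarith

theorem invsum {u v y : ℝ} (hv : 0 ≤ v) (hy : 0 < y) (S : Finset ℕ)
    (h : ∀ p ∈ S, p.Prime ∧ y ≤ log p ∧ u ≤ log p ∧ log p ≤ u + v) :
    ∑ p ∈ S, (p : ℝ)⁻¹ ≤ (5 * v + 3) / y := by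
  have h0 : 0 ≤ 3 / 2 * v := by linarith
  have h1 := block (exp_pos u) (⌊3 / 2 * v⌋₊ + 1) S fun p hp => by
    obtain ⟨a1, -, a2, a3⟩ := h p hp
    have a0 : (0 : ℝ) < p := by exact_mod_cast a1.pos
    refine ⟨a1, (le_log_iff_exp_le a0).1 a2, ?_⟩
    rw [← log_lt_log_iff a0 (by positivity), log_mul (by positivity) (exp_pos u).ne', log_exp,
      log_pow]
    have a4 := Nat.lt_floor_add_one (3 / 2 * v)
    have a5 := log_two_gt_d9
    push_cast
    nlinarith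
  have h2 := Nat.floor_le h0
  have h3 : ∑ p ∈ S, (p : ℝ)⁻¹ ≤ (∑ p ∈ S, log p / p) / y := by
    rw [sum_div]
    refine sum_le_sum fun p hp => ?_
    rw [le_div_iff₀ hy, div_eq_inv_mul]
    exact mul_le_mul_of_nonneg_left (h p hp).2.1 (by positivity)
  refine h3.trans (div_le_div_of_nonneg_right ?_ hy.le)
  push_cast at h1
  linarith

theorem sigma_le (k : ℕ) : ∀ S : Finset ℕ, (∀ p ∈ S, p.Prime ∧ log p ≤ 2 ^ k) →
    ∑ p ∈ S, (p : ℝ)⁻¹ ≤ 11 + 8 * k := by
  induction k with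
  | zero =>
    intro S h
    have h1 := invsum (u := 1 / 2) (v := 1 / 2) (y := 1 / 2) (by norm_num) (by norm_num) S
      fun p hp => by
        have a1 : log 2 ≤ log p := log_le_log two_pos (by exact_mod_cast (h p hp).1.two_le)
        have a2 := log_two_gt_d9
        have a3 := (h p hp).2
        exact ⟨(h p hp).1, by linarith, by linarith, by linarith⟩
    norm_num at h1 ⊢
    exact h1
  | succ k ih =>
    intro S h
    rw [← sum_filter_add_sum_filter_not S fun p => log p ≤ 2 ^ k]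
    have h1 := ih (S.filter fun p => log p ≤ 2 ^ k) fun p hp =>
      ⟨(h p (mem_filter.1 hp).1).1, (mem_filter.1 hp).2⟩
    have h0 : (1 : ℝ) ≤ 2 ^ k := one_le_pow₀ one_le_two
    have h2 := invsum (u := 2 ^ k) (v := 2 ^ k) (y := 2 ^ k) (by positivity) (by positivity)
      (S.filter fun p => ¬ log p ≤ 2 ^ k) fun p hp => by
        have a1 := (not_le.1 (mem_filter.1 hp).2).le
        have a2 := (h p (mem_filter.1 hp).1).2
        rw [pow_succ] at a2
        exact ⟨(h p (mem_filter.1 hp).1).1, a1, a1, by linarith⟩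
    have h3 : (5 * (2 : ℝ) ^ k + 3) / 2 ^ k ≤ 8 := (div_le_iff₀ (by positivity)).2 (by linarith)
    push_cast
    linarith

/-- the primes up to `X` -/
def PR (X : ℕ) : Finset ℕ := (range (X + 1)).filter Nat.Prime

theorem mem_PR {X p : ℕ} : p ∈ PR X ↔ p ≤ X ∧ p.Prime := by
  rw [PR, mem_filter, mem_range, Nat.lt_succ_iff]

open scoped Classical in
theorem pin_sum {ε y : ℝ} (hε : 0 ≤ ε) (hy : 0 < y) (X : ℕ) :
    ∑ x ∈ (PR X ×ˢ PR X).filter (Pin ε y), ((x.1 * x.2 : ℕ) : ℝ)⁻¹ ≤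
      (∑ p ∈ PR X, (p : ℝ)⁻¹) * (2 * ((40 * ε + 3) / y)) := by
  rw [sum_filter, sum_product, sum_mul]
  refine sum_le_sum fun p _ => ?_
  have key : ∀ c : ℝ, ∑ q ∈ (PR X).filter (fun q : ℕ => y ≤ log q ∧ |log q - c| ≤ 4 * ε),
      (q : ℝ)⁻¹ ≤ (40 * ε + 3) / y := fun c => by
    have := invsum (u := c - 4 * ε) (v := 8 * ε) (by linarith) hy
      ((PR X).filter (fun q : ℕ => y ≤ log q ∧ |log q - c| ≤ 4 * ε)) fun q hq => by
        obtain ⟨a1, a2, a3⟩ := mem_filter.1 hq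
        rw [abs_le] at a3
        exact ⟨(mem_PR.1 a1).2, a2, by linarith, by linarith⟩
    rwa [show 5 * (8 * ε) = 40 * ε by ring] at this
  have h1 := key (log p)
  have h2 := key (log p / 3)
  rw [sum_filter] at h1 h2
  refine le_trans ?_ (mul_le_mul_of_nonneg_left ((add_le_add h1 h2).trans_eq (two_mul _).symm)
    (by positivity))
  rw [← sum_add_distrib, mul_sum]
  refine sum_le_sum fun q _ => ?_
  have a0 : (0 : ℝ) ≤ (q : ℝ)⁻¹ := by positivity
  by_cases h : Pin ε y (p, q)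
  · rw [if_pos h]
    push_cast
    rw [mul_inv]
    refine mul_le_mul_of_nonneg_left ?_ (by positivity)
    rcases h.2.2.2 with e | e
    · rw [if_pos ⟨h.2.2.1, e⟩]
      split_ifs <;> linarith
    · rw [if_pos (c := y ≤ log q ∧ |log q - log p / 3| ≤ 4 * ε) ⟨h.2.2.1, e⟩]
      split_ifs <;> linarith
  · rw [if_neg h]
    positivity

open scoped Classical in
theorem count_HP {Q : ℕ × ℕ → Prop} {X : ℕ} (A : Finset (ℕ × ℕ))
    (hA : ∀ x, Q x → 0 < x.1 * x.2 → x.1 * x.2 ≤ X → x ∈ A) (a : ℕ) : ∀ Y ≤ X,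
      (((Icc 1 Y).filter (HP Q a)).card : ℝ) ≤ Y * (∑ x ∈ A, ((x.1 * x.2 : ℕ) : ℝ)⁻¹) ^ a := by
  induction a with
  | zero =>
    intro Y _
    have := card_filter_le (Icc 1 Y) (HP Q 0)
    rw [Nat.card_Icc] at this
    rw [pow_zero, mul_one]
    exact_mod_cast this
  | succ a ih =>
    intro Y hY
    have h1 : (Icc 1 Y).filter (HP Q (a + 1)) ⊆ A.biUnion fun x =>
        ((Icc 1 (Y / (x.1 * x.2))).filter (HP Q a)).image (x.1 * x.2 * ·) := by
      intro g hg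
      obtain ⟨b1, x, hx, g', rfl, h⟩ := mem_filter.1 hg
      obtain ⟨b2, b3⟩ := mem_Icc.1 b1
      have b4 : 0 < x.1 * x.2 := Nat.pos_of_mul_pos_right b2
      have b5 : 0 < g' := Nat.pos_of_mul_pos_left b2
      refine mem_biUnion.2 ⟨x, hA x hx b4 (((Nat.le_mul_of_pos_right _ b5).trans b3).trans hY),
        mem_image.2 ⟨g', mem_filter.2 ⟨mem_Icc.2 ⟨b5, ?_⟩, h⟩, rfl⟩⟩
      rwa [Nat.le_div_iff_mul_le b4, mul_comm]
    have h2 := (card_le_card h1).trans (card_biUnion_le.trans (sum_le_sum fun x _ => card_image_le))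
    refine le_trans (b := ∑ x ∈ A, (((Icc 1 (Y / (x.1 * x.2))).filter (HP Q a)).card : ℝ))
      (by exact_mod_cast h2) ?_
    rw [pow_succ, mul_sum, mul_sum]
    refine sum_le_sum fun x _ => (ih _ ((Nat.div_le_self _ _).trans hY)).trans ?_
    rw [mul_comm _ ((x.1 * x.2 : ℕ) : ℝ)⁻¹, ← mul_assoc, ← div_eq_mul_inv]
    exact mul_le_mul_of_nonneg_right Nat.cast_div_le (by positivity)

theorem count_omega {X Y : ℕ} (hY : Y ≤ X) (w : ℕ) :
    (((Icc 1 Y).filter fun g => w ≤ g.primeFactors.card).card : ℝ) ≤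
      Y * (exp (2 * ∑ p ∈ PR X, (p : ℝ)⁻¹) / 2 ^ w) := by
  have h1 : ((Icc 1 Y).filter fun g => w ≤ g.primeFactors.card) ⊆
      (powersetCard w (PR X)).biUnion fun t =>
        (Icc 1 (Y / ∏ p ∈ t, p)).image ((∏ p ∈ t, p) * ·) := by
    intro g hg
    obtain ⟨b1, b2⟩ := mem_filter.1 hg
    obtain ⟨b3, b4⟩ := mem_Icc.1 b1
    obtain ⟨t, ht, hc⟩ := exists_subset_card_eq b2
    obtain ⟨g', e⟩ := (prod_dvd_prod_of_subset _ _ (fun p => p) ht).trans
      (Nat.prod_primeFactors_dvd g)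
    have b5 : 0 < (∏ p ∈ t, p) * g' := e ▸ b3
    refine mem_biUnion.2 ⟨t, mem_powersetCard.2 ⟨fun p hp => mem_PR.2
      ⟨((Nat.le_of_mem_primeFactors (ht hp)).trans b4).trans hY,
        Nat.prime_of_mem_primeFactors (ht hp)⟩, hc⟩,
      mem_image.2 ⟨g', mem_Icc.2 ⟨Nat.pos_of_mul_pos_left b5, ?_⟩, e.symm⟩⟩
    rwa [Nat.le_div_iff_mul_le (Nat.pos_of_mul_pos_right b5), mul_comm, ← e]
  have h2 := (card_le_card h1).trans (card_biUnion_le.trans (sum_le_sum fun x _ => card_image_le))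
  simp only [Nat.card_Icc, Nat.add_sub_cancel] at h2
  have h3 : ∑ t ∈ powersetCard w (PR X), ∏ p ∈ t, (2 * (p : ℝ)⁻¹) ≤
      exp (2 * ∑ p ∈ PR X, (p : ℝ)⁻¹) := by
    refine le_trans (b := ∑ t ∈ (PR X).powerset, ∏ p ∈ t, (2 * (p : ℝ)⁻¹))
      (sum_le_sum_of_subset_of_nonneg (fun t ht => mem_powerset.2 (mem_powersetCard.1 ht).1)
        fun t _ _ => by positivity) ?_
    rw [← prod_one_add, mul_sum, exp_sum]
    exact prod_le_prod (fun p _ => by positivity) fun p _ => by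
      rw [add_comm]
      exact add_one_le_exp _
  refine le_trans (b := ∑ t ∈ powersetCard w (PR X), ((Y / ∏ p ∈ t, p : ℕ) : ℝ))
    (by exact_mod_cast h2) (le_trans ?_ (mul_le_mul_of_nonneg_left
      (div_le_div_of_nonneg_right h3 (by positivity)) (by positivity)))
  rw [sum_div, mul_sum]
  refine sum_le_sum fun t ht => Nat.cast_div_le.trans_eq ?_
  rw [prod_mul_distrib, prod_const, (mem_powersetCard.1 ht).2, prod_inv_distrib]
  push_cast
  field_simp

end Pool.Agent.P.MP_b905d3_nt
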