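import Pool.Agent.P.MP_b905d3_nt.Main

/-! The greedy splitting of a critical set of primes. -/

namespace Pool.Agent.P.MP_b905d3_nt

open Finset Real

/-- the logarithm of a product -/
noncomputable def L (S : Finset ℕ) : ℝ := ∑ p ∈ S, log p

theorem L_insert {q : ℕ} {S : Finset ℕ} (h : q ∉ S) : L (insert q S) = log q + L S :=
  sum_insert h

theorem L_empty : L ∅ = 0 := rfl

theorem L_nonneg (S : Finset ℕ) : 0 ≤ L S := sum_nonneg fun p _ => log_natCast_nonneg p

/-- `g` is divisible by a product of `a` pairs from `Q` -/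
def HP (Q : ℕ × ℕ → Prop) : ℕ → ℕ → Prop
  | 0, _ => True
  | a + 1, g => ∃ x, Q x ∧ ∃ g', g = x.1 * x.2 * g' ∧ HP Q a g'

theorem HP.mul {Q : ℕ × ℕ → Prop} (c : ℕ) : ∀ {a g : ℕ}, HP Q a g → HP Q a (c * g)
  | 0, _, _ => trivial
  | _ + 1, _, ⟨x, hx, g', e, h⟩ => ⟨x, hx, c * g', by rw [e]; ring, h.mul c⟩

theorem HP.anti {Q : ℕ × ℕ → Prop} {a b g : ℕ} (h : HP Q a g) (hb : b ≤ a) : HP Q b g := by
  induction hb generalizing g with
  | refl => exact h
  | step _ ih =>
    obtain ⟨x, -, g', e, h'⟩ := h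
    rw [e]
    exact (ih h').mul _

/-- pinned pairs of primes -/
def Pin (ε y : ℝ) (x : ℕ × ℕ) : Prop :=
  x.1.Prime ∧ x.2.Prime ∧ y ≤ log x.2 ∧
    (|log x.2 - log x.1| ≤ 4 * ε ∨ |log x.2 - log x.1 / 3| ≤ 4 * ε)

/-- no subproduct of large primes is near `exp r` -/
def NC (ε : ℝ) (S : Finset ℕ) (r : ℝ) : Prop :=
  ∀ p ∈ S, ∀ D ⊆ S, (∀ z ∈ D, p ≤ z) → log p / 2 - ε < |L D - r|

/-- the data at the largest skipped prime -/
structure Top (ε τ y : ℝ) (S F : Finset ℕ) (r : ℝ) (q : ℕ) (d : ℝ) (i : ℕ) : Prop where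
  mem : q ∈ F
  res : r - (L S - L F) ≤ τ
  lo : 2 * (r - d) - 2 * ε ≤ log q
  hi : log q ≤ 2 * (r - d) + 2 * ε
  gap : d = 0 ∨ (log q ≤ d ∧ 3 * d ≤ 2 * (r + ε)) ∨ 2 * log q ≤ d
  all : L F ≤ F.card * log q
  mass : L F ≤ 4 / 3 * log q + 25 ^ i * (F.card * y + ε)
  tail : 3 * log q ≤ 2 * L F + 4 * ε
  p1 : HP (Pin ε y) (i / 2) (∏ p ∈ F.erase q, p)
  p2 : HP (Pin ε y) ((i + 1) / 2) (∏ p ∈ F, p)

theorem Top.total {ε τ y : ℝ} {S F : Finset ℕ} {r : ℝ} {q : ℕ} {d : ℝ} {i : ℕ} (hε : 0 ≤ ε)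
    (hy : 0 ≤ y) (h : Top ε τ y S F r q d i) : L F ≤ 25 ^ (i + 1) * (F.card * y + ε) := by
  have h1 : (1 : ℝ) ≤ 25 ^ i := one_le_pow₀ (by norm_num)
  have h2 : 0 ≤ F.card * y := by positivity
  have h3 : ε ≤ 25 ^ i * (F.card * y + ε) := by nlinarith
  have h4 := h.mass
  have h5 := h.tail
  rw [pow_succ, mul_right_comm]
  linarith

theorem skip {ε τ y : ℝ} (hε : 0 ≤ ε) (hτ : τ ≤ ε) (hy : 4 * ε ≤ y) {S F : Finset ℕ} {r : ℝ}
    {t : ℕ} (ht : t.Prime) (hS : ∀ p ∈ S, p.Prime ∧ p < t) (hF : F ⊆ S) (hr : r < log t)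
    (h1 : log t / 2 - ε < r) (h2 : log t / 2 - ε < log t - r) (hd : log t ≤ τ + L S)
    (hE : L S - L F ≤ r) (h : F = ∅ ∨ ∃ q d i, Top ε τ y S F r q d i) :
    ∃ i, Top ε τ y (insert t S) (insert t F) r t 0 i := by
  have htS : t ∉ S := fun hh => lt_irrefl _ (hS t hh).2
  have htF : t ∉ F := fun hh => htS (hF hh)
  have hy0 : 0 ≤ y := by linarith
  have ht0 : 0 ≤ log t := log_natCast_nonneg t
  have key : ∀ i : ℕ, r - (L S - L F) ≤ τ → L F ≤ F.card * log t →
      L F ≤ log t / 3 + 25 ^ i * (F.card * y + ε) → HP (Pin ε y) (i / 2) (∏ p ∈ F, p) →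
      HP (Pin ε y) ((i + 1) / 2) (t * ∏ p ∈ F, p) →
      Top ε τ y (insert t S) (insert t F) r t 0 i := fun i a1 a2 a3 a4 a5 => by
    have a6 : (25 : ℝ) ^ i * (F.card * y + ε) ≤ 25 ^ i * ((F.card + 1) * y + ε) := by
      gcongr
      linarith
    refine ⟨mem_insert_self _ _, ?_, by linarith, by linarith, Or.inl rfl, ?_, ?_, ?_, ?_, ?_⟩
    · rw [L_insert htS, L_insert htF]
      linarith
    · rw [L_insert htF, card_insert_of_notMem htF]
      push_cast
      linarith
    · rw [L_insert htF, card_insert_of_notMem htF]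
      push_cast
      linarith
    · rw [L_insert htF]
      linarith
    · rwa [erase_insert htF]
    · rwa [prod_insert htF]
  rcases h with rfl | ⟨q, d, i, h⟩
  · rw [L_empty] at hE
    refine ⟨0, key 0 (by rw [L_empty]; linarith) (by simp [L_empty]) ?_ trivial trivial⟩
    rw [L_empty]
    positivity
  have hq := hS q (hF h.mem)
  have hqt : log q ≤ log t := log_le_log (by exact_mod_cast hq.1.pos) (by exact_mod_cast hq.2.le)
  have hall : L F ≤ F.card * log t := h.all.trans (by gcongr)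
  have keep : L F ≤ log t / 3 + 25 ^ i * (F.card * y + ε) →
      ∃ i, Top ε τ y (insert t S) (insert t F) r t 0 i := fun a =>
    ⟨i, key i h.res hall a (h.p2.anti (by omega)) (h.p2.mul t)⟩
  have tight : Pin ε y (t, q) → ∃ i, Top ε τ y (insert t S) (insert t F) r t 0 i := fun a => by
    refine ⟨i + 1, key (i + 1) h.res hall ?_ h.p2 ?_⟩
    · have := h.total hε hy0
      linarith
    · rw [show (i + 1 + 1) / 2 = i / 2 + 1 by omega]
      exact ⟨(t, q), a, _, by rw [← mul_prod_erase F (fun p => p) h.mem, mul_assoc], h.p1⟩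
  have hlo := h.lo
  have hhi := h.hi
  rcases lt_or_ge (log q) y with hs | hs
  · refine keep ?_
    have b1 : (1 : ℝ) ≤ 25 ^ i := one_le_pow₀ (by norm_num)
    have b2 : L F ≤ F.card * y := h.all.trans (by gcongr)
    have b3 : 0 ≤ F.card * y := by positivity
    nlinarith
  rcases h.gap with e | ⟨e1, e2⟩ | e
  · refine tight ⟨ht, hq.1, hs, Or.inl (abs_le.2 ⟨?_, ?_⟩)⟩ <;> dsimp only <;> linarith
  · refine tight ⟨ht, hq.1, hs, Or.inr (abs_le.2 ⟨?_, ?_⟩)⟩ <;> dsimp only <;> linarith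
  · have := h.mass
    exact keep (by linarith)

theorem greedy {ε τ y : ℝ} (hε : 0 ≤ ε) (hτ : τ ≤ ε) (hy : 4 * ε ≤ y) (S : Finset ℕ)
    (hp : ∀ p ∈ S, p.Prime) (hd : ∀ q ∈ S, log q ≤ τ + L (S.filter (· < q))) :
    ∀ r : ℝ, 0 ≤ r → NC ε S r → ∃ F ⊆ S, L S - L F ≤ r ∧
      (F = ∅ ∨ ∃ q d i, Top ε τ y S F r q d i) := by
  induction S using Finset.induction_on_max with
  | empty => exact fun r hr _ => ⟨∅, Subset.rfl, by simpa using hr, Or.inl rfl⟩
  | insert t S ht ih =>
    intro r hr hN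
    have htS : t ∉ S := fun hh => lt_irrefl t (ht t hh)
    have hp' : ∀ p ∈ S, p.Prime := fun p h => hp p (mem_insert_of_mem h)
    have ih' := ih hp' fun q hq => by
      have := hd q (mem_insert_of_mem hq)
      rwa [filter_insert, if_neg (not_lt.2 (ht q hq).le)] at this
    have hd1 := hd t (mem_insert_self _ _)
    rw [filter_insert, if_neg (lt_irrefl t), filter_true_of_mem ht] at hd1
    have n0 := hN t (mem_insert_self _ _) ∅ (empty_subset _) (by simp)
    have n1 := hN t (mem_insert_self _ _) {t} (by simp) (by simp)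
    rw [L_empty, zero_sub, abs_neg, abs_of_nonneg hr] at n0
    have e1 : L {t} = log t := sum_singleton _ _
    rw [e1] at n1
    rcases le_or_gt (log t) r with hle | hlt
    · obtain ⟨F, hF, h1, h2⟩ := ih' (r - log t) (by linarith) fun p hpS D hD hz => by
        have htD : t ∉ D := fun hh => htS (hD hh)
        have := hN p (mem_insert_of_mem hpS) (insert t D) (insert_subset_insert _ hD) (by
          intro z hz'
          rcases mem_insert.1 hz' with e | hz'
          · exact e ▸ (ht p hpS).le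
          · exact hz z hz')
        rw [L_insert htD] at this
        rwa [show L D - (r - log t) = log t + L D - r by ring]
      rw [abs_sub_comm, abs_of_nonneg (by linarith)] at n1
      refine ⟨F, hF.trans (subset_insert _ _), by rw [L_insert htS]; linarith, ?_⟩
      rcases h2 with h2 | ⟨q, d, i, h⟩
      · exact Or.inl h2
      have hq : log q ≤ log t := log_le_log (by exact_mod_cast (hp' q (hF h.mem)).pos)
        (by exact_mod_cast (ht q (hF h.mem)).le)
      have hq0 : 0 ≤ log q := log_natCast_nonneg q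
      refine Or.inr ⟨q, d + log t, i, h.mem, ?_, ?_, ?_, ?_, h.all, h.mass, h.tail, h.p1, h.p2⟩
      · have := h.res
        rw [L_insert htS]
        linarith
      · have := h.lo
        linarith
      · have := h.hi
        linarith
      · rcases h.gap with e | ⟨e1, -⟩ | e
        · exact Or.inr (Or.inl ⟨by linarith, by linarith⟩)
        · exact Or.inr (Or.inr (by linarith))
        · exact Or.inr (Or.inr (by linarith))
    · obtain ⟨F, hF, h1, h2⟩ := ih' r hr fun p hp D hD hz =>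
        hN p (mem_insert_of_mem hp) D (hD.trans (subset_insert _ _)) hz
      rw [abs_of_nonneg (by linarith)] at n1
      obtain ⟨i, h⟩ := skip hε hτ hy (hp t (mem_insert_self _ _))
        (fun p hp => ⟨hp' p hp, ht p hp⟩) hF hlt n0 n1 hd1 h1 h2
      refine ⟨insert t F, insert_subset_insert _ hF, ?_, Or.inr ⟨t, 0, i, h⟩⟩
      rw [L_insert htS, L_insert fun hh => htS (hF hh)]
      linarith

end Pool.Agent.P.MP_b905d3_nt
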