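import Pool.Agent.P.MP_b905d3_nt.SpB

/-! Numbers with a well placed divisor made of large primes. -/

namespace Pool.Agent.P.MP_b905d3_nt

open Finset Real

theorem not_dvd_num {A : Finset ℕ} (hA : ∀ p ∈ A, p.Prime) {q : ℕ} (hq : q ∈ A) :
    ¬ q ∣ ∑ p ∈ A, (∏ r ∈ A, r) / p := by
  rw [← add_sum_erase _ _ hq]
  have h1 : q ∣ ∑ p ∈ A.erase q, (∏ r ∈ A, r) / p := by
    refine Finset.dvd_sum fun p hp => ?_
    obtain ⟨a1, a2⟩ := mem_erase.1 hp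
    rw [Nat.dvd_div_iff_mul_dvd (dvd_prod_of_mem _ a2)]
    exact Nat.Coprime.mul_dvd_of_dvd_of_dvd ((Nat.coprime_primes (hA p a2) (hA q hq)).2 a1)
      (dvd_prod_of_mem _ a2) (dvd_prod_of_mem _ hq)
  rw [← Nat.dvd_add_iff_left h1, ← mul_prod_erase A (fun r => r) hq,
    Nat.mul_div_cancel_left _ (hA q hq).pos, (hA q hq).prime.dvd_finsetProd_iff]
  rintro ⟨r, hr, h⟩
  obtain ⟨a1, a2⟩ := mem_erase.1 hr
  exact a1 ((Nat.prime_dvd_prime_iff_eq (hA q hq) (hA r a2)).1 h).symm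

theorem farey_aux {A B : Finset ℕ} (hA : ∀ p ∈ A, p.Prime) (hB : ∀ p ∈ B, p.Prime) {q : ℕ}
    (hq : q ∈ A) (hq' : q ∉ B) (k : ℤ) : 1 ≤ ((∏ p ∈ A, p : ℕ) : ℝ) * (∏ p ∈ B, p : ℕ) *
      |∑ p ∈ A, (p : ℝ)⁻¹ - ∑ p ∈ B, (p : ℝ)⁻¹ - k| := by
  have ha := sum_div_cast (S := A) (P := ∏ p ∈ A, p)
    fun p hp => ⟨dvd_prod_of_mem _ hp, (hA p hp).ne_zero⟩
  have hb := sum_div_cast (S := B) (P := ∏ p ∈ B, p)
    fun p hp => ⟨dvd_prod_of_mem _ hp, (hB p hp).ne_zero⟩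
  have h1 := not_dvd_num hA hq
  have h2 : ¬ q ∣ ∏ p ∈ B, p := by
    rw [(hA q hq).prime.dvd_finsetProd_iff]
    rintro ⟨r, hr, h⟩
    exact hq' ((Nat.prime_dvd_prime_iff_eq (hA q hq) (hB r hr)).1 h ▸ hr)
  have h3 : q ∣ ∏ p ∈ A, p := dvd_prod_of_mem _ hq
  generalize ∑ p ∈ A, (∏ r ∈ A, r) / p = a at ha h1
  generalize ∑ p ∈ B, (∏ r ∈ B, r) / p = b at hb
  generalize ∏ p ∈ A, p = P at ha h3 ⊢
  generalize ∏ p ∈ B, p = Q at hb h2 ⊢
  have h4 : (a : ℤ) * Q - b * P - k * P * Q ≠ 0 := fun e => by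
    obtain ⟨c, rfl⟩ := h3
    have h5 : (q : ℤ) ∣ ((a * Q : ℕ) : ℤ) := ⟨b * c + k * c * Q, by
      push_cast at e ⊢
      linear_combination e⟩
    exact (((hA q hq).dvd_mul).1 (Int.natCast_dvd_natCast.1 h5)).elim h1 h2
  have h6 : (1 : ℝ) ≤ |(a : ℝ) * Q - b * P - k * P * Q| := by
    exact_mod_cast Int.one_le_abs h4
  refine h6.trans_eq ?_
  rw [ha, hb, ← abs_of_nonneg (show (0 : ℝ) ≤ P * Q by positivity), ← abs_mul]
  congr 1
  ring

theorem farey {A B : Finset ℕ} (hA : ∀ p ∈ A, p.Prime) (hB : ∀ p ∈ B, p.Prime) (hne : A ≠ B)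
    (k : ℤ) : 1 ≤ ((∏ p ∈ A, p : ℕ) : ℝ) * (∏ p ∈ B, p : ℕ) *
      |∑ p ∈ A, (p : ℝ)⁻¹ - ∑ p ∈ B, (p : ℝ)⁻¹ - k| := by
  by_cases h : A ⊆ B
  · obtain ⟨q, h1, h2⟩ := not_subset.1 fun h' => hne (Subset.antisymm h h')
    refine (farey_aux hB hA h1 h2 (-k)).trans_eq ?_
    rw [mul_comm ((∏ p ∈ B, p : ℕ) : ℝ), ← abs_neg]
    congr 2
    push_cast
    ring
  · obtain ⟨q, h1, h2⟩ := not_subset.1 h
    exact farey_aux hA hB h1 h2 k

/-- a small divisor whose reciprocal sum lies in a short arc -/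
def Wit (t y δ α : ℝ) (h n : ℕ) : Prop :=
  ∃ A : Finset ℕ, (∀ p ∈ A, p.Prime) ∧ h * ∏ p ∈ A, p ∣ n ∧ y ≤ (∏ p ∈ A, p : ℕ) ∧
    ((∏ p ∈ A, p : ℕ) : ℝ) ≤ t ∧ ∃ k : ℤ, 0 < k - ∑ p ∈ A, (p : ℝ)⁻¹ - α ∧
      k - ∑ p ∈ A, (p : ℝ)⁻¹ - α ≤ δ

theorem fiber {t y δ α : ℝ} {h X : ℕ} (hh : 0 < h) (hy : 0 < y) (hδ : t * t * δ ≤ 1)
    (T : Finset ℕ) (hT : ∀ n ∈ T, n ≤ X ∧ G n ∧ Wit t y δ α h n) :
    (T.card : ℝ) ≤ X / y ^ 2 * ((h : ℝ) ^ 2)⁻¹ + 1 := by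
  rcases T.eq_empty_or_nonempty with rfl | ⟨n0, hn0⟩
  · rw [card_empty, Nat.cast_zero]
    positivity
  obtain ⟨A, a1, -, a3, a4, k, a5, a6⟩ := (hT n0 hn0).2.2
  have key : ∀ n ∈ T, h * ∏ p ∈ A, p ∣ n := fun n hn => by
    obtain ⟨B, b1, b2, b3, b4, k', b5, b6⟩ := (hT n hn).2.2
    by_cases e : A = B
    · rwa [e]
    have c1 := farey a1 b1 e (k - k')
    have c2 : |∑ p ∈ A, (p : ℝ)⁻¹ - ∑ p ∈ B, (p : ℝ)⁻¹ - (k - k' : ℤ)| < δ := by
      push_cast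
      exact abs_lt.2 ⟨by linarith, by linarith⟩
    have c3 : 0 < t := by linarith
    have c4 : ((∏ p ∈ A, p : ℕ) : ℝ) * (∏ p ∈ B, p : ℕ) ≤ t * t :=
      mul_le_mul a4 b4 (by positivity) c3.le
    have c5 := mul_le_mul_of_nonneg_right c4
      (abs_nonneg (∑ p ∈ A, (p : ℝ)⁻¹ - ∑ p ∈ B, (p : ℝ)⁻¹ - (k - k' : ℤ)))
    have c6 := mul_lt_mul_of_pos_left c2 (mul_pos c3 c3)
    linarith
  generalize ∏ p ∈ A, p = d at a3 key
  have hd : 0 < d := by exact_mod_cast hy.trans_le a3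
  have h1 := spaced_card (D := h * d * (h * d)) (X := X) (by positivity) T (fun n hn => (hT n hn).1)
    fun n hn n' hn' hle => sq_dvd_sub (hT n hn).2.1 (hT n' hn').2.1 (key n hn) (key n' hn') hle
  have h2 : (T.card : ℝ) ≤ ((X / (h * d * (h * d)) : ℕ) : ℝ) + 1 := by exact_mod_cast h1
  refine h2.trans (add_le_add_left (Nat.cast_div_le.trans ?_) _)
  rw [← div_eq_mul_inv, div_div]
  refine div_le_div_of_nonneg_left (by positivity) (by positivity) ?_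
  push_cast
  have : y ^ 2 ≤ (d : ℝ) ^ 2 := pow_le_pow_left₀ hy.le a3 2
  nlinarith [sq_nonneg (h : ℝ)]

theorem exists_wit {n T z p : ℕ} {y : ℝ} (hG : G n) (hT : n.primeFactors.card ≤ T)
    (hp : p ∈ n.primeFactors) (hz : z ≤ p) (hz0 : 0 < z) {D : Finset ℕ} (hD : D ⊆ n.primeFactors)
    (hpD : ∀ q ∈ D, p ≤ q) (h1 : 1 ≤ T * y) (h2 : T * y ≤ z) :
    ∃ h d : ℕ, h * d * ∏ q ∈ D, q = n ∧ y ≤ d ∧ (d : ℝ) ≤ T * y ∧
      Wit (T * y) y (T / z) (∑ q ∈ h.primeFactors.filter (· < z), (q : ℝ)⁻¹) h n := by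
  have hn := Nat.prod_primeFactors_of_squarefree (sqfree hG)
  have hP : ∀ q ∈ n.primeFactors, q.Prime := fun q hq => Nat.prime_of_mem_primeFactors hq
  set P := n.primeFactors
  set U := P.filter (· < z) with hU
  have hUP : U ⊆ P := filter_subset _ _
  have hT0 : (0 : ℝ) < T := by exact_mod_cast (card_pos.2 ⟨p, hp⟩).trans_le hT
  have a1 : z ≤ T * ∏ q ∈ U, q := by
    obtain ⟨q, hq, hmin⟩ := exists_min_image (P.filter (z ≤ ·)) id ⟨p, mem_filter.2 ⟨hp, hz⟩⟩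
    obtain ⟨b1, b2⟩ := mem_filter.1 hq
    have b3 : P.filter (· < q) = U := filter_congr fun r hr =>
      ⟨fun b => not_le.1 fun c => absurd (hmin r (mem_filter.2 ⟨hr, c⟩)) (not_le.2 b),
        fun b => b.trans_le b2⟩
    exact b2.trans (b3 ▸ (chain hG b1).trans (Nat.mul_le_mul_right _ hT))
  obtain ⟨d, d1, d2, d3⟩ := dense T U (fun q hq => (hP q (hUP hq)).pos) (fun q hq => by
      have b : U.filter (· < q) = P.filter (· < q) := by
        rw [hU, filter_filter]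
        exact filter_congr fun r _ => ⟨fun b => b.2, fun b => ⟨b.trans (mem_filter.1 hq).2, b⟩⟩
      exact b ▸ (chain hG (hUP hq)).trans (Nat.mul_le_mul_right _ hT)) y h1 (by
      have b : (z : ℝ) ≤ T * (∏ q ∈ U, q : ℕ) := by exact_mod_cast a1
      exact le_of_mul_le_mul_left (h2.trans b) hT0)
  have hu : ∏ q ∈ U, q ∣ n := hn ▸ prod_dvd_prod_of_subset _ _ _ hUP
  have hn0 : n ≠ 0 := by have := hG.1; omega
  have d4 := Nat.prod_primeFactors_of_squarefree ((sqfree hG).squarefree_of_dvd (d1.trans hu))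
  have d5 : d.primeFactors ⊆ U := by
    have := Nat.primeFactors_mono d1 (ne_zero_of_dvd_ne_zero hn0 hu)
    rwa [Nat.primeFactors_prod fun q hq => hP q (hUP hq)] at this
  set A := d.primeFactors
  have dis : Disjoint A D := disjoint_left.2 fun q b c =>
    absurd (mem_filter.1 (d5 b)).2 (not_lt.2 (hz.trans (hpD q c)))
  have e1 : (∏ q ∈ P \ (A ∪ D), q) * d * ∏ q ∈ D, q = n := by
    rw [mul_assoc, ← d4, ← prod_union dis, prod_sdiff (union_subset (d5.trans hUP) hD), hn]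
  refine ⟨_, d, e1, d2, d3, A, fun q hq => hP q (hUP (d5 hq)), ?_, by rwa [d4], by rwa [d4], ?_⟩
  · rw [d4]
    exact Dvd.intro _ e1
  have e2 : (P \ (A ∪ D)).filter (· < z) = U \ A := by
    ext q
    simp only [hU, mem_filter, mem_sdiff, mem_union, not_or]
    exact ⟨fun b => ⟨⟨b.1.1, b.2⟩, b.1.2.1⟩, fun b =>
      ⟨⟨b.1.1, b.2, fun c => absurd b.1.2 (not_lt.2 (hz.trans (hpD q c)))⟩, b.1.2⟩⟩
  rw [Nat.primeFactors_prod fun q hq => hP q (mem_sdiff.1 hq).1, e2]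
  obtain ⟨k, hk⟩ := sum_inv hG
  rw [← sum_filter_add_sum_filter_not P (· < z), ← hU, ← sum_sdiff d5] at hk
  have r1 : (p : ℝ)⁻¹ ≤ ∑ q ∈ P.filter (fun q => ¬ q < z), (q : ℝ)⁻¹ :=
    single_le_sum (f := fun q : ℕ => (q : ℝ)⁻¹) (fun _ _ => by positivity)
      (mem_filter.2 ⟨hp, not_lt.2 hz⟩)
  have hz' : (0 : ℝ) < z := by exact_mod_cast hz0
  have r2 : ∑ q ∈ P.filter (fun q => ¬ q < z), (q : ℝ)⁻¹ ≤ T / z := by
    refine (sum_le_card_nsmul _ _ (z : ℝ)⁻¹ fun q hq => inv_anti₀ hz' ?_).trans ?_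
    · exact_mod_cast not_lt.1 (mem_filter.1 hq).2
    · rw [nsmul_eq_mul, div_eq_mul_inv]
      exact mul_le_mul_of_nonneg_right (by exact_mod_cast (card_filter_le _ _).trans hT)
        (by positivity)
  have r3 : (n : ℝ)⁻¹ < (p : ℝ)⁻¹ := by
    refine inv_strictAnti₀ (by exact_mod_cast (hP p hp).pos) ?_
    exact_mod_cast lt_of_le_of_ne (Nat.le_of_mem_primeFactors hp) fun e => hG.2.1 (e ▸ hP p hp)
  have r4 : (0 : ℝ) ≤ (n : ℝ)⁻¹ := by positivity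
  exact ⟨k, by linarith, by linarith⟩

theorem count_z {X T z : ℕ} {y lo hi : ℝ} (hz0 : 0 < z) (hy : 0 < y) (hlo : 0 < lo) (hhi : 0 ≤ hi)
    (h1 : 1 ≤ T * y) (h2 : T * y ≤ z) (h3 : T * y * (T * y) * (T / z) ≤ 1) (F : Finset ℕ)
    (hF : ∀ n ∈ F, n ≤ X ∧ G n ∧ n.primeFactors.card ≤ T ∧ ∃ p ∈ n.primeFactors, z ≤ p ∧
      ∃ D ⊆ n.primeFactors, (∀ q ∈ D, p ≤ q) ∧ lo * (∏ q ∈ D, q : ℕ) ≤ n ∧
        n ≤ hi * (∏ q ∈ D, q : ℕ)) :
    (F.card : ℝ) ≤ hi / y + 2 * X * T / (y * lo) := by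
  classical
  have hTy : 0 < T * y := by linarith
  have hc : 0 < ⌈lo / (T * y)⌉₊ := Nat.ceil_pos.2 (by positivity)
  have hsub : F ⊆ (Ioo (⌈lo / (T * y)⌉₊ - 1) (⌊hi / y⌋₊ + 1)).biUnion fun h => F.filter fun n =>
      Wit (T * y) y (T / z) (∑ q ∈ h.primeFactors.filter (· < z), (q : ℝ)⁻¹) h n := by
    intro n hn
    obtain ⟨-, a1, a2, p, a3, a4, D, a5, a6, a7, a8⟩ := hF n hn
    obtain ⟨h, d, b1, b2, b3, b4⟩ := exists_wit a1 a2 a3 a4 hz0 a5 a6 h1 h2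
    have c0 : (0 : ℝ) < (∏ q ∈ D, q : ℕ) := by
      exact_mod_cast prod_pos fun q hq => (Nat.prime_of_mem_primeFactors (a5 hq)).pos
    rw [← b1] at a7 a8
    rw [Nat.cast_mul, Nat.cast_mul] at a7 a8
    have c1 := le_of_mul_le_mul_right a7 c0
    have c2 := le_of_mul_le_mul_right a8 c0
    have c3 : (0 : ℝ) ≤ h := by positivity
    have c4 : ⌈lo / (T * y)⌉₊ ≤ h := Nat.ceil_le.2 ((div_le_iff₀ hTy).2 (by nlinarith))
    have c5 : h ≤ ⌊hi / y⌋₊ := Nat.le_floor ((le_div_iff₀ hy).2 (by nlinarith))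
    exact mem_biUnion.2 ⟨h, mem_Ioo.2 ⟨by omega, by omega⟩, mem_filter.2 ⟨hn, b4⟩⟩
  have e1 := (card_le_card hsub).trans card_biUnion_le
  have e2 := sum_le_sum (s := Ioo (⌈lo / (T * y)⌉₊ - 1) (⌊hi / y⌋₊ + 1)) fun h hh =>
    fiber (h := h) (X := X) (by have := (mem_Ioo.1 hh).1; omega) hy h3
      (F.filter fun n =>
        Wit (T * y) y (T / z) (∑ q ∈ h.primeFactors.filter (· < z), (q : ℝ)⁻¹) h n)
      fun n hn => ⟨(hF n (mem_filter.1 hn).1).1, (hF n (mem_filter.1 hn).1).2.1,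
        (mem_filter.1 hn).2⟩
  refine le_trans (le_trans (by exact_mod_cast e1) e2) ?_
  rw [sum_add_distrib, ← mul_sum, sum_const, Nat.card_Ioo, nsmul_eq_mul, mul_one, add_comm]
  refine add_le_add ?_ ?_
  · refine le_trans ?_ (Nat.floor_le (by positivity))
    exact_mod_cast (by omega : ⌊hi / y⌋₊ + 1 - (⌈lo / (T * y)⌉₊ - 1) - 1 ≤ ⌊hi / y⌋₊)
  · have e3 := sum_Ioo_inv_sq_le (α := ℝ) (⌈lo / (T * y)⌉₊ - 1) (⌊hi / y⌋₊ + 1)
    rw [Nat.cast_sub hc, Nat.cast_one, sub_add_cancel] at e3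
    have e4 : (2 : ℝ) / ⌈lo / (T * y)⌉₊ ≤ 2 / (lo / (T * y)) :=
      div_le_div_of_nonneg_left two_pos.le (by positivity) (Nat.le_ceil _)
    refine (mul_le_mul_of_nonneg_left (e3.trans e4) (by positivity)).trans_eq ?_
    field_simp

theorem exp_L {S : Finset ℕ} (h : ∀ p ∈ S, p.Prime) : exp (L S) = (∏ p ∈ S, p : ℕ) := by
  rw [L, exp_sum, Nat.cast_prod]
  exact prod_congr rfl fun p hp => exp_log (by exact_mod_cast (h p hp).pos)

theorem count_good {X T : ℕ} {ε : ℝ} (hX : 0 < X) (hT : 0 < T) (hXT : Nat.log 2 X ≤ T)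
    (hε : 1 ≤ ε) (hτ : log T ≤ ε) (F : Finset ℕ)
    (hF : ∀ n ∈ F, n ≤ X ∧ G n ∧ n.primeFactors.card ≤ T ∧ log X - ε ≤ log n ∧
      ¬ NC ε n.primeFactors (log n / 2)) :
    (F.card : ℝ) ≤ exp (log X / 2 + 4 * log T + 3 - ε / 2) := by
  classical
  have hT0 : (0 : ℝ) < T := by exact_mod_cast hT
  have hT1 : (1 : ℝ) ≤ T := by exact_mod_cast hT
  have hτ0 : 0 ≤ log T := log_natCast_nonneg T
  have l2 := log_two_lt_d9
  have l2' := log_two_gt_d9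
  have hsub : F ⊆ (range (T + 1)).biUnion fun j => F.filter fun n => ∃ p ∈ n.primeFactors,
      Nat.log 2 p = j ∧ ∃ D ⊆ n.primeFactors, (∀ q ∈ D, p ≤ q) ∧
        |L D - log n / 2| ≤ log p / 2 - ε := by
    intro n hn
    obtain ⟨a1, -, -, -, a2⟩ := hF n hn
    simp only [NC, not_forall, not_lt] at a2
    obtain ⟨p, b1, D, b2, b3, b4⟩ := a2
    refine mem_biUnion.2 ⟨Nat.log 2 p, mem_range.2 (Nat.lt_succ_of_le ?_),
      mem_filter.2 ⟨hn, p, b1, rfl, D, b2, b3, b4⟩⟩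
    exact (Nat.log_mono_right ((Nat.le_of_mem_primeFactors b1).trans a1)).trans hXT
  have e1 := (card_le_card hsub).trans card_biUnion_le
  have e2 : ∀ j ∈ range (T + 1), ((F.filter fun n : ℕ => ∃ p ∈ n.primeFactors,
      Nat.log 2 p = j ∧ ∃ D ⊆ n.primeFactors, (∀ q ∈ D, p ≤ q) ∧
        |L D - log n / 2| ≤ log p / 2 - ε).card : ℝ) ≤
      3 * exp (log X / 2 + 5 / 2 * log T + 1 / 2 - ε / 2) := fun j _ => by
    have hp : ∀ p : ℕ, p.Prime → Nat.log 2 p = j → 2 ^ j ≤ p ∧ log p ≤ log (2 ^ j : ℕ) + 1 :=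
      fun p a b => by
        refine ⟨b ▸ Nat.pow_log_le_self 2 a.ne_zero, ?_⟩
        have c : (p : ℝ) ≤ (2 ^ j : ℕ) * 2 := by
          exact_mod_cast (b ▸ Nat.lt_pow_succ_log_self one_lt_two p).le
        have c' := log_le_log (by exact_mod_cast a.pos) c
        rw [log_mul (by positivity) two_ne_zero] at c'
        linarith
    have hz0 : 0 < 2 ^ j := by positivity
    generalize 2 ^ j = z at hp hz0
    have hz : (0 : ℝ) < z := by exact_mod_cast hz0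
    have hz1 : 0 ≤ log z := log_natCast_nonneg z
    rcases lt_or_ge (log z) (log T) with c | c
    · rw [filter_false_of_mem, card_empty, Nat.cast_zero]
      · positivity
      rintro n - ⟨p, a1, a2, D, -, -, a3⟩
      have := (hp p (Nat.prime_of_mem_primeFactors a1) a2).2
      linarith [abs_nonneg (L D - log n / 2)]
    have eT : ∀ u : ℝ, T * exp u = exp (log T + u) := fun u => by rw [exp_add, exp_log hT0]
    refine (count_z (X := X) (T := T) (y := exp ((log z - 3 * log T) / 2))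
      (lo := exp (log X / 2 - log z / 2 - 1 / 2 + ε / 2))
      (hi := exp (log X / 2 + log z / 2 + 1 / 2 - ε)) hz0 (exp_pos _) (exp_pos _) (exp_pos _).le
      ?_ ?_ ?_ _ fun n hn => ?_).trans ?_
    · rw [eT]
      exact one_le_exp (by linarith)
    · rw [eT, ← le_log_iff_exp_le hz]
      linarith
    · rw [eT, ← exp_add, mul_div_assoc', div_le_one hz, mul_comm, eT, ← le_log_iff_exp_le hz]
      linarith
    · obtain ⟨hn, p, a1, a2, D, a3, a4, a5⟩ := mem_filter.1 hn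
      obtain ⟨b1, b2, b3, b4, -⟩ := hF n hn
      obtain ⟨b5, b6⟩ := hp p (Nat.prime_of_mem_primeFactors a1) a2
      have b7 : (0 : ℝ) < n := by exact_mod_cast zero_lt_one.trans b2.1
      have b8 : log n ≤ log X := log_le_log b7 (by exact_mod_cast b1)
      rw [abs_le] at a5
      refine ⟨b1, b2, b3, p, a1, b5, D, a3, a4, ?_, ?_⟩
      · rw [← exp_L fun q hq => Nat.prime_of_mem_primeFactors (a3 hq), ← exp_add,
          ← le_log_iff_exp_le b7]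
        linarith
      · rw [← exp_L fun q hq => Nat.prime_of_mem_primeFactors (a3 hq), ← exp_add,
          ← log_le_iff_le_exp b7]
        linarith
    · have eX : (X : ℝ) = exp (log X) := (exp_log (by exact_mod_cast hX)).symm
      rw [← exp_sub, ← exp_add, mul_assoc, mul_div_assoc, mul_comm (X : ℝ)]
      nth_rewrite 2 [eX]
      rw [eT, ← exp_sub, show (3 : ℝ) * exp _ = exp _ + 2 * exp _ by ring]
      refine add_le_add (exp_le_exp.2 (by linarith))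
        (mul_le_mul_of_nonneg_left (exp_le_exp.2 (by linarith)) two_pos.le)
  have e3 := sum_le_sum e2
  rw [sum_const, card_range, nsmul_eq_mul] at e3
  refine le_trans (le_trans (by exact_mod_cast e1) e3) ?_
  have e4 : (6 : ℝ) ≤ exp (5 / 2) := by
    have := quadratic_le_exp_of_nonneg (x := 5 / 2) (by norm_num)
    linarith
  have e5 : exp (log X / 2 + 5 / 2 * log T + 1 / 2 - ε / 2) * (T * exp (5 / 2)) ≤
      exp (log X / 2 + 4 * log T + 3 - ε / 2) := by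
    nth_rewrite 2 [← exp_log hT0]
    rw [← exp_add, ← exp_add]
    exact exp_le_exp.2 (by linarith)
  refine le_trans ?_ e5
  push_cast
  have e6 := exp_pos (log X / 2 + 5 / 2 * log T + 1 / 2 - ε / 2)
  have e7 : (T + 1) * 3 ≤ T * exp (5 / 2) := by nlinarith
  nlinarith

end Pool.Agent.P.MP_b905d3_nt
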