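import Pool.Agent.P.MP_b905d3_nt.SpA
import Pool.Agent.P.MP_b905d3_nt.SpC

/-! The counting bound. -/

namespace Pool.Agent.P.MP_b905d3_nt

open Finset Real

theorem crit_div {n T a w : ℕ} {ε y : ℝ} (hG : G n) (hT : n.primeFactors.card ≤ T) (hε : 0 < ε)
    (hτ : log T ≤ ε) (hy : 4 * ε ≤ y) (hN : NC ε n.primeFactors (log n / 2))
    (hb : 25 ^ (2 * a) * (w * y + ε) < log n / 2) :
    ∃ g : ℕ, g ∣ n ∧ n ≤ g * g ∧ log g ≤ log n / 2 + log T ∧
      (w ≤ g.primeFactors.card ∨ HP (Pin ε y) a g) := by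
  have hn := Nat.prod_primeFactors_of_squarefree (sqfree hG)
  have hP : ∀ q ∈ n.primeFactors, q.Prime := fun q hq => Nat.prime_of_mem_primeFactors hq
  have hn1 : (1 : ℝ) < n := by exact_mod_cast hG.1
  have hl := log_pos hn1
  have eL : ∀ S ⊆ n.primeFactors, log (∏ p ∈ S, p : ℕ) = L S := fun S hS => by
    rw [← exp_L fun p hp => hP p (hS hp), log_exp]
  have e0 : L n.primeFactors = log n := by rw [← eL _ Subset.rfl, hn]
  obtain ⟨F, hF, h1, h2⟩ := greedy hε.le hτ hy n.primeFactors hP (fun q hq => by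
    have a1 := (chain hG hq).trans (Nat.mul_le_mul_right _ hT)
    have a2 : 0 < T * ∏ p ∈ n.primeFactors.filter (· < q), p := (hP q hq).pos.trans_le a1
    rw [← eL _ (filter_subset _ _), ← log_mul (by exact_mod_cast (Nat.pos_of_mul_pos_right a2).ne')
      (by exact_mod_cast (Nat.pos_of_mul_pos_left a2).ne')]
    exact log_le_log (by exact_mod_cast (hP q hq).pos) (by exact_mod_cast a1))
    (log n / 2) (by linarith) hN
  rw [e0] at h1
  rcases h2 with rfl | ⟨q, d, i, h⟩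
  · rw [L_empty] at h1
    linarith
  have h3 := h.res
  rw [e0] at h3
  have h4 : (0 : ℝ) < (∏ p ∈ F, p : ℕ) := by
    exact_mod_cast prod_pos fun p hp => (hP p (hF hp)).pos
  refine ⟨∏ p ∈ F, p, hn ▸ prod_dvd_prod_of_subset _ _ _ hF, ?_, by rw [eL F hF]; linarith, ?_⟩
  · have h5 : (n : ℝ) ≤ (∏ p ∈ F, p : ℕ) * (∏ p ∈ F, p : ℕ) := by
      rw [← log_le_log_iff (by linarith) (by positivity), log_mul h4.ne' h4.ne', eL F hF]
      linarith
    exact_mod_cast h5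
  rw [Nat.primeFactors_prod fun p hp => hP p (hF hp)]
  refine (le_total w F.card).imp_right fun hw => h.p2.anti ?_
  have h5 := h.total hε.le (by linarith)
  have hy0 : 0 ≤ y := by linarith
  have h6 : (25 : ℝ) ^ (i + 1) * (F.card * y + ε) ≤ 25 ^ (i + 1) * (w * y + ε) := by gcongr
  have h7 : (25 : ℝ) ^ (2 * a) < 25 ^ (i + 1) :=
    lt_of_mul_lt_mul_right (a := w * y + ε) (by linarith) (by positivity)
  have h8 := (pow_lt_pow_iff_right₀ (by norm_num)).1 h7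
  omega

theorem count_crit {X T a w : ℕ} {ε y σ ς : ℝ} (hε : 0 < ε) (hτ : log T ≤ ε) (hy : 4 * ε ≤ y)
    (hσ : ∑ p ∈ PR X, (p : ℝ)⁻¹ ≤ σ) (hς : σ * (2 * ((40 * ε + 3) / y)) ≤ ς) (F : Finset ℕ)
    (hF : ∀ n ∈ F, n ≤ X ∧ G n ∧ n.primeFactors.card ≤ T ∧ NC ε n.primeFactors (log n / 2) ∧
      25 ^ (2 * a) * (w * y + ε) < log n / 2) :
    (F.card : ℝ) ≤ 2 * (exp (log X / 2 + log T) * (exp (2 * σ) / 2 ^ w + ς ^ a)) := by
  classical
  have hy0 : 0 < y := by linarith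
  set Y := min X ⌊exp (log X / 2 + log T)⌋₊ with hY
  have hYX : Y ≤ X := min_le_left _ _
  have hY1 : (Y : ℝ) ≤ exp (log X / 2 + log T) :=
    le_trans (by exact_mod_cast min_le_right _ _) (Nat.floor_le (exp_pos _).le)
  have hsub : F ⊆ (((Icc 1 Y).filter fun g => w ≤ g.primeFactors.card) ∪
      (Icc 1 Y).filter (HP (Pin ε y) a)).biUnion fun g => F.filter fun n => g ∣ n ∧ n ≤ g * g := by
    intro n hn
    obtain ⟨a1, a2, a3, a4, a5⟩ := hF n hn
    obtain ⟨g, b1, b2, b3, b4⟩ := crit_div a2 a3 hε hτ hy a4 a5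
    have c0 : 0 < n := zero_lt_one.trans a2.1
    have c1 : 0 < g := Nat.pos_of_dvd_of_pos b1 c0
    have c2 : log n ≤ log X := log_le_log (by exact_mod_cast c0) (by exact_mod_cast a1)
    have c3 : g ∈ Icc 1 Y := mem_Icc.2 ⟨c1, le_min ((Nat.le_of_dvd c0 b1).trans a1)
      (Nat.le_floor ((log_le_iff_le_exp (by exact_mod_cast c1)).1 (by linarith)))⟩
    exact mem_biUnion.2 ⟨g, mem_union.2 (b4.imp (fun c => mem_filter.2 ⟨c3, c⟩)
      fun c => mem_filter.2 ⟨c3, c⟩), mem_filter.2 ⟨hn, b1, b2⟩⟩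
  have e1 := (card_le_card hsub).trans (card_biUnion_le_card_mul _ _ 2 fun g hg => by
    have c1 : 0 < g := by
      rcases mem_union.1 hg with c | c <;> exact (mem_Icc.1 (mem_filter.1 c).1).1
    have := spaced_card (D := g * g) (X := g * g) (by positivity)
      (F.filter fun n => g ∣ n ∧ n ≤ g * g) (fun n hn => (mem_filter.1 hn).2.2)
      fun n hn n' hn' hle => sq_dvd_sub (hF n (mem_filter.1 hn).1).2.1
        (hF n' (mem_filter.1 hn').1).2.1 (mem_filter.1 hn).2.1 (mem_filter.1 hn').2.1 hle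
    rwa [Nat.div_self (by positivity)] at this)
  have e2 := e1.trans (Nat.mul_le_mul_right 2 (card_union_le _ _))
  have e3 := count_omega hYX w
  have e4 := count_HP (Q := Pin ε y) (X := X) ((PR X ×ˢ PR X).filter (Pin ε y))
    (fun x h1 h2 h3 => mem_filter.2 ⟨mem_product.2
      ⟨mem_PR.2 ⟨(Nat.le_mul_of_pos_right _ h1.2.1.pos).trans h3, h1.1⟩,
        mem_PR.2 ⟨(Nat.le_mul_of_pos_left _ h1.1.pos).trans h3, h1.2.1⟩⟩, h1⟩) a Y hYX
  have e5 := (pin_sum hε.le hy0 X).trans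
    ((mul_le_mul_of_nonneg_right hσ (by positivity)).trans hς)
  have e6 : (Y : ℝ) * (exp (2 * ∑ p ∈ PR X, (p : ℝ)⁻¹) / 2 ^ w) ≤
      exp (log X / 2 + log T) * (exp (2 * σ) / 2 ^ w) := by gcongr
  have e7 : (Y : ℝ) * (∑ x ∈ (PR X ×ˢ PR X).filter (Pin ε y), ((x.1 * x.2 : ℕ) : ℝ)⁻¹) ^ a ≤
      exp (log X / 2 + log T) * ς ^ a := by gcongr
  have e8 : (F.card : ℝ) ≤ ((((Icc 1 Y).filter fun g => w ≤ g.primeFactors.card).card : ℝ) +
      ((Icc 1 Y).filter (HP (Pin ε y) a)).card) * 2 := by exact_mod_cast e2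
  linarith

theorem count_small {T : ℕ} {u : ℝ} (hT : 1 ≤ T) (hu : 0 ≤ u) (F : Finset ℕ)
    (hF : ∀ n ∈ F, G n ∧ n.primeFactors.card ≤ T ∧ log n ≤ 2 * u) :
    (F.card : ℝ) ≤ 6 * T * exp u := by
  have h1 := one_le_exp hu
  have h2 := count_le (X := ⌊exp (2 * u)⌋₊) (Y := ⌈exp u⌉₊) hT (Nat.ceil_pos.2 (exp_pos u)) F
    fun n hn => ⟨Nat.le_floor ((log_le_iff_le_exp
      (by exact_mod_cast zero_lt_one.trans (hF n hn).1.1)).1 (hF n hn).2.2), (hF n hn).1,
      (hF n hn).2.1⟩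
  have h3 := (Nat.ceil_lt_add_one (exp_pos u).le).le
  have h4 : 2 * (⌊exp (2 * u)⌋₊ : ℝ) / ⌈exp u⌉₊ ≤ 2 * exp u := by
    rw [div_le_iff₀ ((exp_pos u).trans_le (Nat.le_ceil _))]
    have a1 := Nat.floor_le (exp_pos (2 * u)).le
    have a2 := Nat.le_ceil (exp u)
    rw [two_mul u, exp_add] at a1 ⊢
    nlinarith
  have h5 : (1 : ℝ) ≤ T := by exact_mod_cast hT
  have h6 : (T : ℝ) * ⌈exp u⌉₊ ≤ T * (2 * exp u) := by gcongr; linarith
  nlinarith

theorem cube_le {s : ℝ} (hs : 10 ^ 8 ≤ s) : 1400 * s ^ 3 ≤ exp (s / 6) := by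
  have h0 : 0 ≤ s := by linarith
  have h1 := pow_div_factorial_le_exp (s / 6) (by linarith) 4
  have h2 : 0 ≤ s ^ 3 := by positivity
  refine le_trans ?_ h1
  rw [show (s / 6) ^ 4 / ((4 : ℕ).factorial : ℝ) = s / 31104 * s ^ 3 by
    norm_num [Nat.factorial]; ring]
  exact mul_le_mul_of_nonneg_right (by linarith) h2

theorem two_pow_ge {u : ℝ} {k : ℕ} (h : 2 * u ≤ k) : exp u ≤ 2 ^ k := by
  rw [← le_log_iff_exp_le (by positivity), log_pow]
  have := log_two_gt_d9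
  have : (0 : ℝ) ≤ k := by positivity
  nlinarith

theorem sparse {X : ℕ} (hX : 2 ≤ X) (hs : 10 ^ 8 ≤ log (log X)) (F : Finset ℕ)
    (hF : ∀ n ∈ F, n ≤ X ∧ G n) :
    (F.card : ℝ) ≤ √X * exp (-(log (log X)) ^ 2 / 200) := by
  classical
  have hX1 : (1 : ℝ) < X := by exact_mod_cast hX
  have hl := exp_log (log_pos hX1)
  have hsq : √(X : ℝ) = exp (log X / 2) := by
    rw [sqrt_eq_iff_mul_self_eq (by linarith) (exp_pos _).le, ← exp_add, add_halves,
      exp_log (by linarith)]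
  have hT1 : 1 ≤ Nat.log 2 X := Nat.log_pos one_lt_two hX
  have hcard : ∀ n ∈ F, n.primeFactors.card ≤ Nat.log 2 X := fun n hn => by
    refine Nat.le_log_of_pow_le one_lt_two (le_trans ?_ (hF n hn).1)
    rw [← Nat.prod_primeFactors_of_squarefree (sqfree (hF n hn).2),
      Nat.primeFactors_prod fun p hp => Nat.prime_of_mem_primeFactors hp]
    exact pow_card_le_prod _ _ _ fun p hp => (Nat.prime_of_mem_primeFactors hp).two_le
  have hTe : ((Nat.log 2 X : ℕ) : ℝ) ≤ exp (log (log X) + 1) := by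
    have a1 : ((2 ^ Nat.log 2 X : ℕ) : ℝ) ≤ X := by
      exact_mod_cast Nat.pow_log_le_self 2 (by omega)
    have a2 := log_le_log (by positivity) a1
    rw [Nat.cast_pow, log_pow, Nat.cast_ofNat] at a2
    have a3 := log_two_gt_d9
    have a4 := add_one_le_exp (1 : ℝ)
    have a5 : (0 : ℝ) ≤ Nat.log 2 X := by positivity
    have a6 := log_pos hX1
    have a7 : log X * 2 ≤ log X * exp 1 := by gcongr; linarith
    rw [exp_add, hl]
    nlinarith
  have hPR : ∀ p ∈ PR X, p.Prime ∧ log p ≤ log X := fun p hp => ⟨(mem_PR.1 hp).2,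
    log_le_log (by exact_mod_cast (mem_PR.1 hp).2.pos) (by exact_mod_cast (mem_PR.1 hp).1)⟩
  generalize hT : Nat.log 2 X = T at hT1 hcard hTe
  generalize log (log X) = s at hs hl hTe ⊢
  have hτ : log T ≤ s + 1 := (log_le_iff_le_exp (by exact_mod_cast hT1)).2 hTe
  have s0 : 0 < s := by linarith
  have s1 : 10 ^ 8 * s ≤ s ^ 2 := by nlinarith
  have s2 : s ^ 2 ≤ s ^ 3 := by nlinarith
  have c1 := cube_le hs
  have c2 : exp (s / 6) ≤ exp (s / 2) := exp_le_exp.2 (by linarith)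
  have c3 : exp (s / 6) ≤ log X := hl ▸ exp_le_exp.2 (by linarith)
  have hσ : ∑ p ∈ PR X, (p : ℝ)⁻¹ ≤ 17 * s := by
    have a1 := sigma_le ⌈2 * s⌉₊ (PR X) fun p hp => ⟨(hPR p hp).1,
      (hPR p hp).2.trans (hl ▸ two_pow_ge (Nat.le_ceil _))⟩
    have a2 := Nat.ceil_lt_add_one (show 0 ≤ 2 * s by linarith)
    linarith
  have hς : 17 * s * (2 * ((40 * s ^ 2 + 3) / exp (s / 2))) ≤ exp (-(s / 3)) := by
    rw [← mul_div_assoc, ← mul_div_assoc, div_le_iff₀ (exp_pos _), ← exp_add,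
      show -(s / 3) + s / 2 = s / 6 by ring]
    nlinarith
  have hb : 25 ^ (2 * ⌊s / 40⌋₊) * (⌈s ^ 2⌉₊ * exp (s / 2) + s ^ 2) < (log X - s ^ 2) / 2 := by
    have a1 : (25 : ℝ) ^ (2 * ⌊s / 40⌋₊) ≤ exp (s / 4) := by
      have b1 : (25 : ℝ) ^ 2 ≤ exp 10 := by
        have := pow_div_factorial_le_exp (10 : ℝ) (by norm_num) 5
        norm_num [Nat.factorial] at this ⊢
        linarith
      rw [pow_mul]
      refine (pow_le_pow_left₀ (by norm_num) b1 _).trans ?_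
      rw [← exp_nat_mul]
      have := Nat.floor_le (show 0 ≤ s / 40 by linarith)
      exact exp_le_exp.2 (by linarith)
    have a2 := (Nat.ceil_lt_add_one (sq_nonneg s)).le
    have a3 := one_le_exp (show 0 ≤ s / 2 by linarith)
    have a4 : ⌈s ^ 2⌉₊ * exp (s / 2) + s ^ 2 ≤ exp (s / 6) / 4 * exp (s / 2) := by nlinarith
    have a5 : exp (s / 4) * (exp (s / 6) / 4 * exp (s / 2)) ≤ log X / 4 := by
      rw [div_mul_eq_mul_div, ← mul_div_assoc, ← exp_add, ← exp_add, ← hl]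
      exact div_le_div_of_nonneg_right (exp_le_exp.2 (by linarith)) (by norm_num)
    have a6 := mul_le_mul a1 a4 (by positivity) (exp_pos _).le
    linarith
  have t1 := count_small (u := (log X - s ^ 2) / 2) hT1 (by linarith)
    (F.filter fun n : ℕ => ¬ log X - s ^ 2 ≤ log n) fun n hn =>
      ⟨(hF n (mem_filter.1 hn).1).2, hcard n (mem_filter.1 hn).1, by
        linarith [not_le.1 (mem_filter.1 hn).2]⟩
  have t2 := count_good (X := X) (T := T) (ε := s ^ 2) (by omega) hT1 hT.le (by linarith)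
    (by linarith) ((F.filter fun n : ℕ => log X - s ^ 2 ≤ log n).filter fun n =>
      ¬ NC (s ^ 2) n.primeFactors (log n / 2)) fun n hn => by
      obtain ⟨a1, a2⟩ := mem_filter.1 hn
      obtain ⟨a3, a4⟩ := mem_filter.1 a1
      exact ⟨(hF n a3).1, (hF n a3).2, hcard n a3, a4, a2⟩
  have t3 := count_crit (X := X) (T := T) (a := ⌊s / 40⌋₊) (w := ⌈s ^ 2⌉₊) (by positivity)
    (by linarith) (by linarith) hσ hς ((F.filter fun n : ℕ => log X - s ^ 2 ≤ log n).filter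
      fun n => NC (s ^ 2) n.primeFactors (log n / 2)) fun n hn => by
      obtain ⟨a1, a2⟩ := mem_filter.1 hn
      obtain ⟨a3, a4⟩ := mem_filter.1 a1
      exact ⟨(hF n a3).1, (hF n a3).2, hcard n a3, a2, by linarith⟩
  have u0 := congrArg (Nat.cast : ℕ → ℝ)
    (card_filter_add_card_filter_not (s := F) fun n : ℕ => log X - s ^ 2 ≤ log n)
  have u2 := congrArg (Nat.cast : ℕ → ℝ)
    (card_filter_add_card_filter_not (s := F.filter fun n : ℕ => log X - s ^ 2 ≤ log n)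
      fun n => NC (s ^ 2) n.primeFactors (log n / 2))
  rw [Nat.cast_add] at u0 u2
  have e5 := add_one_le_exp (5 : ℝ)
  have fin : ∀ v : ℝ, v ≤ log X / 2 - s ^ 2 / 200 - 5 →
      6 * exp v ≤ exp (log X / 2) * exp (-s ^ 2 / 200) := fun v hv => by
    refine (mul_le_mul_of_nonneg_right (show (6 : ℝ) ≤ exp 5 by linarith) (exp_pos v).le).trans ?_
    rw [← exp_add, ← exp_add]
    exact exp_le_exp.2 (by linarith)
  have u1 : 6 * (T : ℝ) * exp ((log X - s ^ 2) / 2) ≤ exp (5 + (s + 1) + (log X - s ^ 2) / 2) := by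
    rw [exp_add, exp_add]
    gcongr
    linarith
  have u3 : exp (log X / 2 + log T) * (exp (2 * (17 * s)) / 2 ^ ⌈s ^ 2⌉₊) ≤
      exp (log X / 2 + log T + (2 * (17 * s) - s ^ 2 / 2)) := by
    rw [exp_add _ (_ - _), exp_sub]
    gcongr
    exact two_pow_ge (by linarith [Nat.le_ceil (s ^ 2)])
  have u4 : exp (log X / 2 + log T) * exp (-(s / 3)) ^ ⌊s / 40⌋₊ ≤
      exp (log X / 2 + log T + (s / 3 - s ^ 2 / 120)) := by
    rw [← exp_nat_mul, ← exp_add]
    have := Nat.lt_floor_add_one (s / 40)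
    exact exp_le_exp.2 (by nlinarith)
  have f1 := fin (5 + (s + 1) + (log X - s ^ 2) / 2) (by linarith)
  have f2 := fin (log X / 2 + 4 * log T + 3 - s ^ 2 / 2) (by linarith)
  have f3 := fin (log X / 2 + log T + (2 * (17 * s) - s ^ 2 / 2)) (by linarith)
  have f4 := fin (log X / 2 + log T + (s / 3 - s ^ 2 / 120)) (by linarith)
  rw [hsq]
  linarith

end Pool.Agent.P.MP_b905d3_nt
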